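import Pool.Agent.DCone.Fam

/-!
# Double cones over centrally symmetric planar convex bodies
-/

set_option autoImplicit false

open Filter Topology Module

namespace Pool.Agent.DCone

section general

variable {E : Type} [NormedAddCommGroup E] [NormedSpace ℝ E] (P : Seminorm ℝ E)

lemma meet_le {z x x' : E} {c c' : ℝ} (hc : 0 < c) (hc' : 0 < c')
    (h : ((fun y => x + c • y) '' {y | P (y - z) ≤ 1} ∩
      (fun y => x' + c' • y) '' {y | P (y - z) ≤ 1}).Nonempty) :
    P ((x + c • z) - (x' + c' • z)) ≤ c + c' := by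
  obtain ⟨y, h1, h2⟩ := h
  rw [mem_hom P z x y hc] at h1
  rw [mem_hom P z x' y hc'] at h2
  have e : (x + c • z) - (x' + c' • z) = (y - (x' + c' • z)) - (y - (x + c • z)) := by abel
  rw [e]
  have := map_sub_le_add P (y - (x' + c' • z)) (y - (x + c • z))
  linarith

lemma disj_ge [FiniteDimensional ℝ E] {z x x' : E} {c c' : ℝ} (hc : 0 < c) (hc' : 0 < c')
    (h : interior ((fun y => x + c • y) '' {y | P (y - z) ≤ 1}) ∩
      interior ((fun y => x' + c' • y) '' {y | P (y - z) ≤ 1}) = ∅) :
    c + c' ≤ P ((x + c • z) - (x' + c' • z)) := by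
  by_contra hcon
  push Not at hcon
  set X := x + c • z with hX
  set X' := x' + c' • z with hX'
  have hS : 0 < c + c' := add_pos hc hc'
  have hopen : ∀ (w : E) (r : ℝ), IsOpen {y | P (y - w) < r} := fun w r =>
    isOpen_lt ((sem_cont P).comp (by fun_prop)) continuous_const
  set y := (c' / (c + c')) • X + (c / (c + c')) • X' with hy
  have e1 : y - X = (c / (c + c')) • (X' - X) := by
    have : X = (c' / (c + c')) • X + (c / (c + c')) • X := by
      rw [← add_smul, ← add_div, add_comm c', div_self hS.ne', one_smul]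
    rw [hy]
    nth_rewrite 2 [this]
    module
  have e2 : y - X' = (c' / (c + c')) • (X - X') := by
    have : X' = (c' / (c + c')) • X' + (c / (c + c')) • X' := by
      rw [← add_smul, ← add_div, add_comm c', div_self hS.ne', one_smul]
    rw [hy]
    nth_rewrite 2 [this]
    module
  have h1 : P (y - X) < c := by
    rw [e1, map_smul_eq_mul, Real.norm_of_nonneg (div_pos hc hS).le, map_sub_rev P]
    calc c / (c + c') * P (X - X') < c / (c + c') * (c + c') := by
          have := div_pos hc hS
          gcongr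
      _ = c := by field_simp
  have h2 : P (y - X') < c' := by
    rw [e2, map_smul_eq_mul, Real.norm_of_nonneg (div_pos hc' hS).le]
    calc c' / (c + c') * P (X - X') < c' / (c + c') * (c + c') := by
          have := div_pos hc' hS
          gcongr
      _ = c' := by field_simp
  have : y ∈ (∅ : Set E) := by
    rw [← h]
    refine ⟨mem_interior.2 ⟨{y | P (y - X) < c}, fun w hw => ?_, hopen _ _, h1⟩,
      mem_interior.2 ⟨{y | P (y - X') < c'}, fun w hw => ?_, hopen _ _, h2⟩⟩
    · exact (mem_hom P z x w hc).2 (le_of_lt hw)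
    · exact (mem_hom P z x' w hc').2 (le_of_lt hw)
  exact this

end general

/-- **Double cones over centrally symmetric planar convex bodies.**  `q` is a seminorm on a three
dimensional space which vanishes at `a`, `u` a linear form which does not vanish at `a`, and `q` and
`u` have no common zero except `0`. -/
theorem colB_dcone {E : Type} [NormedAddCommGroup E] [NormedSpace ℝ E] (hE : finrank ℝ E = 3)
    (q : Seminorm ℝ E) (u : E →ₗ[ℝ] ℝ) (a z : E) (ha : q a = 0) (hu : u a ≠ 0)
    (hnd : ∀ y, q y = 0 → u y = 0 → y = 0) :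
    C1G.ColB {y | q (y - z) + |u (y - z)| ≤ 1} 8 := by
  have hfd : FiniteDimensional ℝ E := FiniteDimensional.of_finrank_pos (by rw [hE]; norm_num)
  have ha0 : a ≠ 0 := by rintro rfl; simp at hu
  -- the projection
  set W : Submodule ℝ E := Submodule.span ℝ {a} with hW
  have hq2 : finrank ℝ (E ⧸ W) = finrank ℝ (ℝ × ℝ) := by
    have h1 := Submodule.finrank_quotient_add_finrank W
    rw [hW, finrank_span_singleton ha0, hE] at h1
    rw [Module.finrank_prod, finrank_self]
    rw [hW]
    omega
  let e : (E ⧸ W) ≃ₗ[ℝ] ℝ × ℝ := LinearEquiv.ofFinrankEq _ _ hq2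
  set π : E →ₗ[ℝ] ℝ × ℝ := e.toLinearMap ∘ₗ W.mkQ with hπ
  have hker : ∀ y, π y = 0 → ∃ r : ℝ, r • a = y := by
    intro y hy
    have h1 : W.mkQ y = 0 := e.injective (by rw [map_zero]; exact hy)
    rw [Submodule.mkQ_apply, Submodule.Quotient.mk_eq_zero, hW, Submodule.mem_span_singleton] at h1
    exact h1
  have hπa : π a = 0 := by
    have h1 : W.mkQ a = 0 := by
      rw [Submodule.mkQ_apply, Submodule.Quotient.mk_eq_zero]
      exact Submodule.mem_span_singleton_self a
    show e (W.mkQ a) = 0
    rw [h1, map_zero]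
  have hsurj : Function.Surjective π := by
    intro v
    obtain ⟨w, rfl⟩ := e.surjective v
    obtain ⟨y, rfl⟩ := W.mkQ_surjective w
    exact ⟨y, rfl⟩
  obtain ⟨s, hs⟩ := π.exists_rightInverse_of_surjective (LinearMap.range_eq_top.2 hsurj)
  have hs' : ∀ v, π (s v) = v := fun v => by
    have := congrArg (fun f : (ℝ × ℝ) →ₗ[ℝ] (ℝ × ℝ) => f v) hs
    simpa using this
  set N : Seminorm ℝ (ℝ × ℝ) := q.comp s with hN
  have hqr : ∀ r : ℝ, q (r • a) = 0 := fun r => by rw [map_smul_eq_mul, ha, mul_zero]
  have hqN : ∀ y, N (π y) = q y := by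
    intro y
    show q (s (π y)) = q y
    obtain ⟨r, hr⟩ := hker (s (π y) - y) (by rw [map_sub, hs', sub_self])
    have h1 : s (π y) = y + r • a := by rw [hr]; abel
    apply le_antisymm
    · rw [h1]
      refine (map_add_le_add q _ _).trans ?_
      rw [hqr, add_zero]
    · have h2 : y = s (π y) - r • a := by rw [h1]; abel
      conv_lhs => rw [h2]
      refine (map_sub_le_add q _ _).trans ?_
      rw [hqr, add_zero]
  have hN0 : ∀ v, N v = 0 → v = 0 := by
    intro v hv
    have hv' : q (s v) = 0 := hv
    set r := u (s v) / u a with hr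
    have h1 : s v - r • a = 0 := by
      refine hnd _ (le_antisymm ?_ (apply_nonneg _ _)) ?_
      · refine (map_sub_le_add q _ _).trans ?_
        rw [hqr, hv', add_zero]
      · rw [map_sub, map_smul, smul_eq_mul, hr, div_mul_cancel₀ _ hu, sub_self]
    have h2 : s v = r • a := sub_eq_zero.1 h1
    rw [← hs' v, h2, map_smul, hπa, smul_zero]
  -- the norm of the body
  set P : Seminorm ℝ E := q + (normSeminorm ℝ ℝ).comp u with hP
  have hPv : ∀ y, P y = N (π y) + |u y| := by
    intro y
    rw [hqN]
    rfl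
  have hbody : {y | q (y - z) + |u (y - z)| ≤ 1} = {y | P (y - z) ≤ 1} := by
    ext y
    show q (y - z) + |u (y - z)| ≤ 1 ↔ P (y - z) ≤ 1
    rw [hPv, hqN]
  rw [hbody]
  intro n c x hc hm
  set X : Fin n → E := fun i => x i + c i • z with hX
  have h1 : ∀ i j, i ≠ j → N (π (X i) - π (X j)) + |u (X i) - u (X j)| ≤ c i + c j := by
    intro i j hij
    have := meet_le P (hc i) (hc j) (hm i j hij)
    rw [hPv, map_sub π, map_sub u] at this
    exact this
  obtain ⟨col, hcol⟩ := fam8 N hN0 c (fun i => u (X i)) (fun i => π (X i)) hc h1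
  refine ⟨col, fun i j hij hd => hcol i j hij ?_⟩
  have := disj_ge P (hc i) (hc j) hd
  rw [hPv, map_sub π, map_sub u] at this
  exact this

end Pool.Agent.DCone
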