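import Pool.Agent.DCone.ConeFam
import Pool.Agent.DCone.Body
import Pool.Agent.SpF.Par

/-!
# Cones over centrally symmetric planar bodies
-/

set_option autoImplicit false

open Filter Topology Module

namespace Pool.Agent.DCone

/-- coordinates for a seminorm which vanishes at one vector -/
lemma coords {E : Type} [NormedAddCommGroup E] [NormedSpace ℝ E] (hE : finrank ℝ E = 3)
    (q : Seminorm ℝ E) (u : E →ₗ[ℝ] ℝ) (a : E) (ha : q a = 0) (hu : u a ≠ 0)
    (hnd : ∀ y, q y = 0 → u y = 0 → y = 0) :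
    ∃ (π : E →ₗ[ℝ] ℝ × ℝ) (N : Seminorm ℝ (ℝ × ℝ)), (∀ y, N (π y) = q y) ∧
      (∀ v, N v = 0 → v = 0) ∧ ∀ v r, ∃ y, π y = v ∧ u y = r := by
  have hfd : FiniteDimensional ℝ E := FiniteDimensional.of_finrank_pos (by rw [hE]; norm_num)
  have ha0 : a ≠ 0 := by rintro rfl; simp at hu
  set W : Submodule ℝ E := Submodule.span ℝ {a} with hW
  have hq2 : finrank ℝ (E ⧸ W) = finrank ℝ (ℝ × ℝ) := by
    have h1 := Submodule.finrank_quotient_add_finrank W
    rw [hW, finrank_span_singleton ha0, hE] at h1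
    rw [Module.finrank_prod, finrank_self]
    rw [hW]
    omega
  let e : (E ⧸ W) ≃ₗ[ℝ] ℝ × ℝ := LinearEquiv.ofFinrankEq _ _ hq2
  set π : E →ₗ[ℝ] ℝ × ℝ := e.toLinearMap ∘ₗ W.mkQ with hπ
  have hker : ∀ y, π y = 0 → ∃ r : ℝ, r • a = y := by
    intro y hy
    have h1 : W.mkQ y = 0 := e.injective (by rw [map_zero]; exact hy)
    rw [Submodule.mkQ_apply, Submodule.Quotient.mk_eq_zero, hW, Submodule.mem_span_singleton] at h1
    exact h1
  have hπa : π a = 0 := by
    have h1 : W.mkQ a = 0 := by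
      rw [Submodule.mkQ_apply, Submodule.Quotient.mk_eq_zero]
      exact Submodule.mem_span_singleton_self a
    show e (W.mkQ a) = 0
    rw [h1, map_zero]
  have hsurj : Function.Surjective π := by
    intro v
    obtain ⟨w, rfl⟩ := e.surjective v
    obtain ⟨y, rfl⟩ := W.mkQ_surjective w
    exact ⟨y, rfl⟩
  obtain ⟨s, hs⟩ := π.exists_rightInverse_of_surjective (LinearMap.range_eq_top.2 hsurj)
  have hs' : ∀ v, π (s v) = v := fun v => by
    have := congrArg (fun f : (ℝ × ℝ) →ₗ[ℝ] (ℝ × ℝ) => f v) hs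
    simpa using this
  have hqr : ∀ r : ℝ, q (r • a) = 0 := fun r => by rw [map_smul_eq_mul, ha, mul_zero]
  refine ⟨π, q.comp s, ?_, ?_, ?_⟩
  · intro y
    show q (s (π y)) = q y
    obtain ⟨r, hr⟩ := hker (s (π y) - y) (by rw [map_sub, hs', sub_self])
    have h1 : s (π y) = y + r • a := by rw [hr]; abel
    apply le_antisymm
    · rw [h1]
      refine (map_add_le_add q _ _).trans ?_
      rw [hqr, add_zero]
    · have h2 : y = s (π y) - r • a := by rw [h1]; abel
      conv_lhs => rw [h2]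
      refine (map_sub_le_add q _ _).trans ?_
      rw [hqr, add_zero]
  · intro v hv
    have hv' : q (s v) = 0 := hv
    set r := u (s v) / u a with hr
    have h1 : s v - r • a = 0 := by
      refine hnd _ (le_antisymm ?_ (apply_nonneg _ _)) ?_
      · refine (map_sub_le_add q _ _).trans ?_
        rw [hqr, hv', add_zero]
      · rw [map_sub, map_smul, smul_eq_mul, hr, div_mul_cancel₀ _ hu, sub_self]
    have h2 : s v = r • a := sub_eq_zero.1 h1
    rw [← hs' v, h2, map_smul, hπa, smul_zero]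
  · intro v r
    refine ⟨s v + ((r - u (s v)) / u a) • a, ?_, ?_⟩
    · rw [map_add, map_smul, hπa, smul_zero, add_zero, hs']
    · rw [map_add, map_smul, smul_eq_mul, div_mul_cancel₀ _ hu]; ring

/-- cones over bodies which are not parallelograms -/
theorem colB_cone_of {E : Type} [NormedAddCommGroup E] [NormedSpace ℝ E] [FiniteDimensional ℝ E]
    (q : Seminorm ℝ E) (u : E →ₗ[ℝ] ℝ) (z : E) (π : E →ₗ[ℝ] ℝ × ℝ) (N : Seminorm ℝ (ℝ × ℝ))
    (hqN : ∀ y, N (π y) = q y) (hN0 : ∀ v, N v = 0 → v = 0)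
    (hlift : ∀ v r, ∃ y, π y = v ∧ u y = r)
    (hT : ∃ a b c, Ext N a ∧ Ext N b ∧ Ext N c ∧ 0 < dd a b ∧ 0 < dd b c ∧ 0 < dd c a) :
    C1G.ColB {y | 0 ≤ u (y - z) ∧ q (y - z) + u (y - z) ≤ 1} 8 := by
  intro n c x hc hm
  set X : Fin n → E := fun i => x i + c i • z with hX
  have hmem : ∀ i y, y ∈ (fun y => x i + c i • y) '' {y | 0 ≤ u (y - z) ∧ q (y - z) + u (y - z) ≤ 1} ↔
      0 ≤ u (y - X i) ∧ q (y - X i) + u (y - X i) ≤ c i := by
    intro i y
    have hci := hc i
    constructor
    · rintro ⟨w, ⟨hw1, hw2⟩, rfl⟩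
      have e : x i + c i • w - X i = c i • (w - z) := by
        simp only [hX]; module
      simp only [e]
      rw [map_smul_eq_mul q, Real.norm_of_nonneg hci.le, map_smul u, smul_eq_mul]
      exact ⟨mul_nonneg hci.le hw1, by nlinarith⟩
    · rintro ⟨h1, h2⟩
      refine ⟨(c i)⁻¹ • (y - x i), ?_, ?_⟩
      · have e : (c i)⁻¹ • (y - x i) - z = (c i)⁻¹ • (y - X i) := by
          have : z = (c i)⁻¹ • (c i • z) := by rw [smul_smul, inv_mul_cancel₀ hci.ne', one_smul]
          conv_lhs => rw [this]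
          simp only [hX]
          module
        show 0 ≤ u ((c i)⁻¹ • (y - x i) - z) ∧
          q ((c i)⁻¹ • (y - x i) - z) + u ((c i)⁻¹ • (y - x i) - z) ≤ 1
        rw [e, map_smul_eq_mul q, Real.norm_of_nonneg (inv_pos.2 hci).le, map_smul u, smul_eq_mul]
        refine ⟨mul_nonneg (inv_pos.2 hci).le h1, ?_⟩
        rw [← mul_add]
        calc (c i)⁻¹ * (q (y - X i) + u (y - X i)) ≤ (c i)⁻¹ * c i := by
              have := (inv_pos.2 hci).le
              gcongr
          _ = 1 := inv_mul_cancel₀ hci.ne'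
      · show x i + c i • ((c i)⁻¹ • (y - x i)) = y
        rw [smul_smul, mul_inv_cancel₀ hci.ne', one_smul]; abel
  set t : Fin n → ℝ := fun i => u (X i) with ht
  set p : Fin n → ℝ × ℝ := fun i => π (X i) with hp
  have hmem' : ∀ i y, y ∈ (fun y => x i + c i • y) '' {y | 0 ≤ u (y - z) ∧ q (y - z) + u (y - z) ≤ 1} ↔
      t i ≤ u y ∧ N (π y - p i) + (u y - t i) ≤ c i := by
    intro i y
    rw [hmem, ← hqN, map_sub π, map_sub u, sub_nonneg]
  have h1 : ∀ i j, i ≠ j → N (p i - p j) + |t i - t j| ≤ c i + c j := by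
    intro i j hij
    obtain ⟨y, h1, h2⟩ := hm i j hij
    obtain ⟨a1, a2⟩ := (hmem' i y).1 h1
    obtain ⟨b1, b2⟩ := (hmem' j y).1 h2
    have e3 : N (p i - p j) ≤ N (π y - p j) + N (π y - p i) := by
      have : p i - p j = (π y - p j) - (π y - p i) := by abel
      rw [this]; exact map_sub_le_add N _ _
    rcases abs_cases (t i - t j) with ⟨e, _⟩ | ⟨e, _⟩ <;> rw [e] <;> linarith
  have h2 : ∀ i j, t j ≤ t i + c i := by
    intro i j
    by_cases hij : i = j
    · subst hij; have := hc i; linarith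
    · obtain ⟨y, h1, h2⟩ := hm i j hij
      obtain ⟨a1, a2⟩ := (hmem' i y).1 h1
      obtain ⟨b1, b2⟩ := (hmem' j y).1 h2
      have : 0 ≤ N (π y - p i) := apply_nonneg _ _
      linarith
  obtain ⟨col, hcol⟩ := cone8 N hN0 hT c t p hc h1 h2
  refine ⟨col, fun i j hij hd => ?_⟩
  by_contra hcon
  have n1 : ¬ (c i + c j ≤ N (p i - p j) + |t i - t j|) := fun h => hcol i j hij (Or.inl h) hcon
  have n2 : ¬ (t i + c i ≤ t j) := fun h => hcol i j hij (Or.inr h) hcon
  have n3 : ¬ (t j + c j ≤ t i) := fun h => hcol j i hij.symm (Or.inr h) hcon.symm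
  push Not at n1 n2 n3
  have hci := hc i
  have hcj := hc j
  -- a level
  obtain ⟨s, s1, s2, s3, s4, s5⟩ : ∃ s : ℝ, t i < s ∧ t j < s ∧ s < t i + c i ∧ s < t j + c j ∧
      N (p i - p j) < (t i + c i - s) + (t j + c j - s) := by
    set s0 := max (t i) (t j) with hs0
    have k1 : s0 < t i + c i := max_lt (by linarith) (by linarith)
    have k2 : s0 < t j + c j := max_lt (by linarith) (by linarith)
    have k3 : N (p i - p j) < (t i + c i - s0) + (t j + c j - s0) := by
      rcases le_total (t i) (t j) with hle | hle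
      · rw [hs0, max_eq_right hle]
        rw [abs_of_nonpos (by linarith)] at n1
        linarith
      · rw [hs0, max_eq_left hle]
        rw [abs_of_nonneg (by linarith)] at n1
        linarith
    set ε := min (min (t i + c i - s0) (t j + c j - s0))
      (((t i + c i - s0) + (t j + c j - s0) - N (p i - p j)) / 2) with hε
    have hε0 : 0 < ε := lt_min (lt_min (by linarith) (by linarith)) (by linarith)
    have l1 : ε ≤ t i + c i - s0 := (min_le_left _ _).trans (min_le_left _ _)
    have l2 : ε ≤ t j + c j - s0 := (min_le_left _ _).trans (min_le_right _ _)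
    have l3 : ε ≤ ((t i + c i - s0) + (t j + c j - s0) - N (p i - p j)) / 2 := min_le_right _ _
    have m1 : t i ≤ s0 := le_max_left _ _
    have m2 : t j ≤ s0 := le_max_right _ _
    exact ⟨s0 + ε / 2, by linarith, by linarith, by linarith, by linarith, by linarith⟩
  set r := t i + c i - s with hr
  set r' := t j + c j - s with hr'
  have r0 : 0 < r := by rw [hr]; linarith
  have r0' : 0 < r' := by rw [hr']; linarith
  have hS : 0 < r + r' := add_pos r0 r0'
  obtain ⟨y, hy1, hy2⟩ := hlift ((r' / (r + r')) • p i + (r / (r + r')) • p j) s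
  have e1 : π y - p i = (r / (r + r')) • (p j - p i) := by
    have : p i = (r' / (r + r')) • p i + (r / (r + r')) • p i := by
      rw [← add_smul, ← add_div, add_comm r', div_self hS.ne', one_smul]
    rw [hy1]
    nth_rewrite 2 [this]
    module
  have e2 : π y - p j = (r' / (r + r')) • (p i - p j) := by
    have : p j = (r' / (r + r')) • p j + (r / (r + r')) • p j := by
      rw [← add_smul, ← add_div, add_comm r', div_self hS.ne', one_smul]
    rw [hy1]
    nth_rewrite 2 [this]
    module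
  have g1 : N (π y - p i) < r := by
    rw [e1, map_smul_eq_mul, Real.norm_of_nonneg (div_pos r0 hS).le, map_sub_rev N]
    calc r / (r + r') * N (p i - p j) < r / (r + r') * (r + r') := by
          have := div_pos r0 hS
          gcongr
      _ = r := by field_simp
  have g2 : N (π y - p j) < r' := by
    rw [e2, map_smul_eq_mul, Real.norm_of_nonneg (div_pos r0' hS).le]
    calc r' / (r + r') * N (p i - p j) < r' / (r + r') * (r + r') := by
          have := div_pos r0' hS
          gcongr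
      _ = r' := by field_simp
  have hopen : ∀ k, IsOpen {y | t k < u y ∧ N (π y - p k) + (u y - t k) < c k} := by
    intro k
    have hπc : Continuous π := LinearMap.continuous_of_finiteDimensional π
    have huc : Continuous u := LinearMap.continuous_of_finiteDimensional u
    have hA : IsOpen {y | t k < u y} := isOpen_lt continuous_const huc
    have hB : IsOpen {y | N (π y - p k) + (u y - t k) < c k} := isOpen_lt
      (((sem_cont N).comp (hπc.sub continuous_const)).add (huc.sub continuous_const))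
      continuous_const
    exact hA.inter hB
  have hsub : ∀ k, {y | t k < u y ∧ N (π y - p k) + (u y - t k) < c k} ⊆
      (fun y => x k + c k • y) '' {y | 0 ≤ u (y - z) ∧ q (y - z) + u (y - z) ≤ 1} := by
    rintro k w ⟨hw1, hw2⟩
    exact (hmem' k w).2 ⟨hw1.le, hw2.le⟩
  have : y ∈ (∅ : Set E) := by
    rw [← hd]
    refine ⟨mem_interior.2 ⟨_, hsub i, hopen i, ?_, ?_⟩, mem_interior.2 ⟨_, hsub j, hopen j, ?_, ?_⟩⟩
    · rw [hy2]; exact s1
    · rw [hy2]; linarith
    · rw [hy2]; exact s2
    · rw [hy2]; linarith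
  exact this

/-- cones over parallelograms are order bodies -/
theorem colB_cone_par (q : Seminorm ℝ (EuclideanSpace ℝ (Fin 3)))
    (u z : EuclideanSpace ℝ (Fin 3)) (π : EuclideanSpace ℝ (Fin 3) →ₗ[ℝ] ℝ × ℝ)
    (N : Seminorm ℝ (ℝ × ℝ)) (hqN : ∀ y, N (π y) = q y)
    (hlift : ∀ v r, ∃ y, π y = v ∧ inner ℝ u y = r) {a b : ℝ × ℝ} (hab : 0 < dd a b)
    (hN : ∀ y, N y = max |L a y| |L b y|) :
    C1G.ColB {y | 0 ≤ inner ℝ u (y - z) ∧ q (y - z) + inner ℝ u (y - z) ≤ 1} 8 := by
  have hLa : ∀ w : ℝ × ℝ, ∃ f : EuclideanSpace ℝ (Fin 3), ∀ y, inner ℝ f y = L w (π y) := by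
    intro w
    set F : EuclideanSpace ℝ (Fin 3) →ₗ[ℝ] ℝ :=
      { toFun := fun y => L w (π y)
        map_add' := fun y z => by rw [map_add, L_add]
        map_smul' := fun r y => by
          rw [map_smul]
          simp only [L, Prod.smul_fst, Prod.smul_snd, smul_eq_mul, RingHom.id_apply]
          ring } with hF
    refine ⟨(InnerProductSpace.toDual ℝ _).symm F.toContinuousLinearMap, fun y => ?_⟩
    rw [InnerProductSpace.toDual_symm_apply]
    rfl
  obtain ⟨f, hf⟩ := hLa a
  obtain ⟨g, hg⟩ := hLa b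
  have hlift2 : ∀ r s t : ℝ, ∃ y, inner ℝ f y = r ∧ inner ℝ g y = s ∧ inner ℝ u y = t := by
    intro r s t
    obtain ⟨y, hy1, hy2⟩ := hlift ((r * b.2 - s * a.2) / dd a b, (a.1 * s - b.1 * r) / dd a b) t
    refine ⟨y, ?_, ?_, hy2⟩
    · rw [hf, hy1]
      simp only [L]
      rw [mul_div_assoc', mul_div_assoc', ← add_div, div_eq_iff hab.ne']
      simp only [dd]; ring
    · rw [hg, hy1]
      simp only [L]
      rw [mul_div_assoc', mul_div_assoc', ← add_div, div_eq_iff hab.ne']
      simp only [dd]; ring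
  obtain ⟨w, hw1, hw2, hw3⟩ := hlift2 1 1 0
  set U : Fin 3 → EuclideanSpace ℝ (Fin 3) := ![(2 : ℝ) • u, f + u, g + u] with hU
  have hUi : LinearIndependent ℝ U := by
    rw [Fintype.linearIndependent_iff]
    intro r hr
    obtain ⟨y, hy1, hy2, hy3⟩ := hlift2 (r 1 - r 0 / 2) (r 2 - r 0 / 2) (r 0 / 2)
    have h1 : inner ℝ (∑ i, r i • U i) y = r 0 ^ 2 + r 1 ^ 2 + r 2 ^ 2 := by
      rw [Fin.sum_univ_three, inner_add_left, inner_add_left, inner_smul_left, inner_smul_left,
        inner_smul_left]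
      simp only [hU, Matrix.cons_val_zero, Matrix.cons_val_one, Matrix.cons_val_two,
        Matrix.head_cons, Matrix.tail_cons, inner_add_left, inner_smul_left, hy1,
        hy2, hy3]
      simp only [conj_trivial]
      ring
    rw [hr, inner_zero_left] at h1
    intro i
    fin_cases i
    · show r 0 = 0
      nlinarith [sq_nonneg (r 0), sq_nonneg (r 1), sq_nonneg (r 2)]
    · show r 1 = 0
      nlinarith [sq_nonneg (r 0), sq_nonneg (r 1), sq_nonneg (r 2)]
    · show r 2 = 0
      nlinarith [sq_nonneg (r 0), sq_nonneg (r 1), sq_nonneg (r 2)]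
  have h := SpF.colB_forest (![none, some 0, some 0]) (by
    intro v w hvw
    fin_cases v
    · simp at hvw
    · simp at hvw; rw [← hvw]; decide
    · simp at hvw; rw [← hvw]; decide) (fun _ => 2) (fun _ => by norm_num) U hUi (z - w)
  have hset : SpF.forestBody (![none, some 0, some 0]) (fun _ => 2) U (z - w) =
      {y | 0 ≤ inner ℝ u (y - z) ∧ q (y - z) + inner ℝ u (y - z) ≤ 1} := by
    ext y
    have e : y - (z - w) = (y - z) + w := by abel
    have e0 : inner ℝ (U 0) (y - (z - w)) = 2 * inner ℝ u (y - z) := by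
      simp only [hU, Matrix.cons_val_zero, inner_smul_left, e, inner_add_right, hw3]
      simp only [conj_trivial]; ring
    have e1 : inner ℝ (U 1) (y - (z - w)) = inner ℝ f (y - z) + inner ℝ u (y - z) + 1 := by
      simp only [hU, Matrix.cons_val_one, Matrix.cons_val_zero, inner_add_left, e,
        inner_add_right, hw1, hw3]
      ring
    have e2 : inner ℝ (U 2) (y - (z - w)) = inner ℝ g (y - z) + inner ℝ u (y - z) + 1 := by
      simp only [hU, Matrix.cons_val_two, Matrix.head_cons, Matrix.tail_cons,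
        inner_add_left, e, inner_add_right, hw2, hw3]
      ring
    have hq : q (y - z) = max |inner ℝ f (y - z)| |inner ℝ g (y - z)| := by
      rw [← hqN, hN, hf, hg]
    have hF : y ∈ SpF.forestBody (![none, some 0, some 0]) (fun _ => 2) U (z - w) ↔
        (0 ≤ 2 * inner ℝ u (y - z) ∧ 2 * inner ℝ u (y - z) ≤ 2) ∧
        (2 * inner ℝ u (y - z) ≤ inner ℝ f (y - z) + inner ℝ u (y - z) + 1 ∧
          inner ℝ f (y - z) + inner ℝ u (y - z) + 1 ≤ 2) ∧
        (2 * inner ℝ u (y - z) ≤ inner ℝ g (y - z) + inner ℝ u (y - z) + 1 ∧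
          inner ℝ g (y - z) + inner ℝ u (y - z) + 1 ≤ 2) := by
      rw [← e0, ← e1, ← e2]
      constructor
      · intro h
        exact ⟨h 0, h 1, h 2⟩
      · rintro ⟨h0, h1, h2⟩ v
        fin_cases v
        · exact h0
        · exact h1
        · exact h2
    rw [hF]
    show _ ↔ 0 ≤ inner ℝ u (y - z) ∧ q (y - z) + inner ℝ u (y - z) ≤ 1
    rw [hq]
    generalize inner ℝ u (y - z) = s
    generalize inner ℝ f (y - z) = r
    generalize inner ℝ g (y - z) = t
    constructor
    · rintro ⟨⟨a1, a2⟩, ⟨a3, a4⟩, a5, a6⟩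
      refine ⟨by linarith, ?_⟩
      have : max |r| |t| ≤ 1 - s :=
        max_le (abs_le.2 ⟨by linarith, by linarith⟩) (abs_le.2 ⟨by linarith, by linarith⟩)
      linarith
    · rintro ⟨a1, a2⟩
      have b1 : |r| ≤ 1 - s := (le_max_left _ _).trans (by linarith)
      have b2 : |t| ≤ 1 - s := (le_max_right |r| _).trans (by linarith)
      have c1 := abs_le.1 b1
      have c2 := abs_le.1 b2
      have := abs_nonneg r
      refine ⟨⟨by linarith, by linarith⟩, ⟨by linarith [c1.1], by linarith [c1.2]⟩,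
        by linarith [c2.1], by linarith [c2.2]⟩
  rw [hset] at h
  exact h

/-- **Cones over centrally symmetric planar convex bodies.**  `q` is a seminorm on `ℝ^3` which
vanishes at `a`, where `⟨u, a⟩ ≠ 0`, and `q` and `⟨u, ·⟩` have no common zero except `0`. -/
theorem colB_cone (q : Seminorm ℝ (EuclideanSpace ℝ (Fin 3))) (u a z : EuclideanSpace ℝ (Fin 3))
    (ha : q a = 0) (hu : inner ℝ u a ≠ (0 : ℝ))
    (hnd : ∀ y, q y = 0 → inner ℝ u y = (0 : ℝ) → y = 0) :
    C1G.ColB {y | 0 ≤ inner ℝ u (y - z) ∧ q (y - z) + inner ℝ u (y - z) ≤ 1} 8 := by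
  obtain ⟨π, N, hqN, hN0, hlift⟩ := coords finrank_euclideanSpace_fin q
    (innerSL ℝ u).toLinearMap a ha hu hnd
  rcases classify N hN0 with hT | ⟨a', b', hab, hN⟩
  · exact colB_cone_of q (innerSL ℝ u).toLinearMap z π N hqN hN0 hlift hT
  · exact colB_cone_par q u z π N hqN hlift hab hN

end Pool.Agent.DCone
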