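import Pool.Agent.DCone.Tri3

/-!
# Eight colours for families of cones
-/

set_option autoImplicit false

open Filter Topology

namespace Pool.Agent.DCone

variable {n : ℕ} {N : Seminorm ℝ (ℝ × ℝ)} {c t : Fin n → ℝ} {p : Fin n → ℝ × ℝ}

/-- the least level which is not bipartite -/
lemma least_bad (h : ∀ i j, i ≠ j → N (p i - p j) + |t i - t j| ≤ c i + c j)
    (hbad : ∃ i, ¬ (gr N c t p fun j => t j ≤ t i).Colorable 2) :
    ∃ m, (gr N c t p fun i => t m < t i).Colorable 2 ∧
      (gr N c t p fun i => t i < t m).Colorable 2 := by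
  classical
  set Bad : Finset (Fin n) := Finset.univ.filter fun i =>
    ¬ (gr N c t p fun j => t j ≤ t i).Colorable 2 with hBad
  have hb : Bad.Nonempty := by
    obtain ⟨i, hi⟩ := hbad
    exact ⟨i, by simp [hBad, hi]⟩
  obtain ⟨m, hmB, hmin⟩ := Finset.exists_min_image Bad t hb
  have hm1 : ¬ (gr N c t p fun j => t j ≤ t m).Colorable 2 := by
    simpa [hBad] using hmB
  refine ⟨m, (level N c t p h (t m)).resolve_left hm1, ?_⟩
  rcases (Finset.univ.filter fun i => t i < t m).eq_empty_or_nonempty with he | he
  · refine ⟨⟨fun _ => 0, fun {i j} hij => ?_⟩⟩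
    have : i ∈ (Finset.univ.filter fun i => t i < t m) := by simp [hij.2.1]
    rw [he] at this
    simp at this
  · obtain ⟨k, hk, hkmax⟩ := Finset.exists_max_image _ t he
    have hk' : t k < t m := by simpa using hk
    have h1 : (gr N c t p fun j => t j ≤ t k).Colorable 2 := by
      by_contra hcon
      have : k ∈ Bad := by simp [hBad, hcon]
      exact absurd (hmin k this) (not_le.2 hk')
    obtain ⟨C⟩ := h1
    refine ⟨⟨C, fun {i j} hij => ?_⟩⟩
    exact C.valid (show (gr N c t p fun j => t j ≤ t k).Adj i j from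
      ⟨hij.1, hkmax i (by simp [hij.2.1]), hkmax j (by simp [hij.2.2.1]), hij.2.2.2⟩)

/-- **Eight colours** for families of cones (over bodies which are not parallelograms). -/
theorem cone8 (N : Seminorm ℝ (ℝ × ℝ)) (hN : ∀ v, N v = 0 → v = 0)
    (hT : ∃ a b c, Ext N a ∧ Ext N b ∧ Ext N c ∧ 0 < dd a b ∧ 0 < dd b c ∧ 0 < dd c a) {n : ℕ}
    (c t : Fin n → ℝ) (p : Fin n → ℝ × ℝ) (hc : ∀ i, 0 < c i)
    (h : ∀ i j, i ≠ j → N (p i - p j) + |t i - t j| ≤ c i + c j)
    (h2 : ∀ i j, t j ≤ t i + c i) :
    ∃ col : Fin n → Fin 8, ∀ i j, i ≠ j →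
      (c i + c j ≤ N (p i - p j) + |t i - t j| ∨ t i + c i ≤ t j) → col i ≠ col j := by
  classical
  rcases isEmpty_or_nonempty (Fin n) with hem | hne
  · exact ⟨fun i => (hem.false i).elim, fun i => (hem.false i).elim⟩
  obtain ⟨M, hM⟩ := Finite.exists_max t
  have ext : ∀ i j, t i + c i ≤ t j → t j = t M ∧ t i + c i = t M ∧ t i < t M := by
    intro i j hij
    have a1 := hM j
    have a2 := h2 i M
    have a3 := hc i
    exact ⟨by linarith, by linarith, by linarith⟩
  by_cases hbad : ∃ i, ¬ (gr N c t p fun j => t j ≤ t i).Colorable 2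
  · obtain ⟨m, ⟨C2⟩, ⟨C1⟩⟩ := least_bad h hbad
    have b1 : ∀ i, (C1 i).1 < 2 := fun i => (C1 i).2
    have b2 : ∀ i, (C2 i).1 < 2 := fun i => (C2 i).2
    have hCM : ∀ i j : {i : Fin n // t i = t m}, i ≠ j → N (p i.1 - p j.1) ≤ c i.1 + c j.1 := by
      intro i j hij
      have := h i.1 j.1 (fun h => hij (Subtype.ext h))
      rw [i.2, j.2, sub_self, abs_zero, add_zero] at this
      exact this
    have v1 : ∀ i j, i ≠ j → c i + c j ≤ N (p i - p j) + |t i - t j| → t i < t m → t j < t m →
        C1 i ≠ C1 j := fun i j hij hle h1 h2 =>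
      C1.valid (show (gr N c t p fun i => t i < t m).Adj i j from ⟨hij, h1, h2, hle⟩)
    have v2 : ∀ i j, i ≠ j → c i + c j ≤ N (p i - p j) + |t i - t j| → t m < t i → t m < t j →
        C2 i ≠ C2 j := fun i j hij hle h1 h2 =>
      C2.valid (show (gr N c t p fun i => t m < t i).Adj i j from ⟨hij, h1, h2, hle⟩)
    by_cases hI : ∃ i, t i + c i = t M ∧ t m < t i
    · obtain ⟨s, hs1, hs2⟩ := hI
      have hsM : t s < t M := by have := hc s; linarith
      -- no touching pairs at the highest level
      have hJ : ∀ i j, i ≠ j → t i = t M → t j = t M →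
          ¬ (c i + c j ≤ N (p i - p j) + |t i - t j|) := by
        intro i j hij hi hj hle
        have his : i ≠ s := by rintro rfl; linarith
        have hjs : j ≠ s := by rintro rfl; linarith
        have e1 := h i s his
        have e2 := h j s hjs
        rw [hi, hj, sub_self, abs_zero, add_zero] at hle
        rw [hi, abs_of_pos (by linarith)] at e1
        rw [hj, abs_of_pos (by linarith)] at e2
        have e3 : N (p i - p j) ≤ N (p i - p s) + N (p j - p s) := by
          have : p i - p j = (p i - p s) - (p j - p s) := by abel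
          rw [this]; exact map_sub_le_add N _ _
        have g1 : C2 i ≠ C2 s := v2 i s his (by
          rw [hi, abs_of_pos (by linarith)]; linarith) (by linarith) hs2
        have g2 : C2 j ≠ C2 s := v2 j s hjs (by
          rw [hj, abs_of_pos (by linarith)]; linarith) (by linarith) hs2
        have g3 : C2 i ≠ C2 j := v2 i j hij (by
          rw [hi, hj, sub_self, abs_zero, add_zero]; exact hle) (by linarith) (by linarith)
        have q1 : (C2 i).1 ≠ (C2 s).1 := fun h => g1 (Fin.ext h)
        have q2 : (C2 j).1 ≠ (C2 s).1 := fun h => g2 (Fin.ext h)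
        have q3 : (C2 i).1 ≠ (C2 j).1 := fun h => g3 (Fin.ext h)
        have := b2 i
        have := b2 j
        have := b2 s
        omega
      obtain ⟨C3, hC3⟩ := planar3 N hT (ι := {i : Fin n // t i = t m}) (fun i => c i.1)
        (fun i => p i.1) (fun i => hc i.1) hCM (p s) (by
          rintro ⟨i, hi⟩ ⟨j, hj⟩
          show N (p i - p s) - c i < c j
          have his : i ≠ s := by rintro rfl; linarith
          have e1 := h i s his
          rw [hi, abs_of_neg (by linarith)] at e1
          have e2 := h2 j M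
          linarith)
      have b3 : ∀ i, (C3 i).1 < 3 := fun i => (C3 i).2
      set f : Fin n → ℕ := fun i => if h1 : t i < t m then (C1 i).1 else
        if h2 : t i = t m then 2 + (C3 ⟨i, h2⟩).1 else if t i = t M then 7 else
          5 + (C2 i).1 with hf
      have f1 : ∀ i, t i < t m → f i = (C1 i).1 := by
        intro i hi; simp only [hf]; rw [dif_pos hi]
      have f2 : ∀ i (hi : t i = t m), f i = 2 + (C3 ⟨i, hi⟩).1 := by
        intro i hi; simp only [hf]; rw [dif_neg hi.not_lt, dif_pos hi]
      have f3 : ∀ i, t m < t i → t i ≠ t M → f i = 5 + (C2 i).1 := by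
        intro i hi hi'; simp only [hf]; rw [dif_neg hi.not_gt, dif_neg hi.ne', if_neg hi']
      have f4 : ∀ i, t m < t i → t i = t M → f i = 7 := by
        intro i hi hi'; simp only [hf]; rw [dif_neg hi.not_gt, dif_neg hi.ne', if_pos hi']
      have cases4 : ∀ i, t i < t m ∨ t i = t m ∨ (t m < t i ∧ t i ≠ t M) ∨
          (t m < t i ∧ t i = t M) := by
        intro i
        rcases lt_trichotomy (t i) (t m) with h1 | h1 | h1
        · exact Or.inl h1
        · exact Or.inr (Or.inl h1)
        · by_cases h3 : t i = t M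
          · exact Or.inr (Or.inr (Or.inr ⟨h1, h3⟩))
          · exact Or.inr (Or.inr (Or.inl ⟨h1, h3⟩))
      have hf8 : ∀ i, f i < 8 := by
        intro i
        rcases cases4 i with h1 | h1 | ⟨h1, h3⟩ | ⟨h1, h3⟩
        · rw [f1 i h1]; have := b1 i; omega
        · rw [f2 i h1]; have := b3 ⟨i, h1⟩; omega
        · rw [f3 i h1 h3]; have := b2 i; omega
        · rw [f4 i h1 h3]; omega
      refine ⟨fun i => ⟨f i, hf8 i⟩, fun i j hij hle he => ?_⟩
      have he' : f i = f j := congrArg Fin.val he
      rcases hle with hle | hle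
      · rcases cases4 i with hi | hi | ⟨hi, hi'⟩ | ⟨hi, hi'⟩ <;>
          rcases cases4 j with hj | hj | ⟨hj, hj'⟩ | ⟨hj, hj'⟩
        · rw [f1 i hi, f1 j hj] at he'
          exact v1 i j hij hle hi hj (Fin.ext he')
        · rw [f1 i hi, f2 j hj] at he'; have := b1 i; omega
        · rw [f1 i hi, f3 j hj hj'] at he'; have := b1 i; omega
        · rw [f1 i hi, f4 j hj hj'] at he'; have := b1 i; omega
        · rw [f2 i hi, f1 j hj] at he'; have := b1 j; omega
        · rw [f2 i hi, f2 j hj] at he'
          refine hC3 ⟨i, hi⟩ ⟨j, hj⟩ (fun h => hij (congrArg Subtype.val h)) ?_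
            (Fin.ext (by omega))
          rw [hi, hj, sub_self, abs_zero, add_zero] at hle
          exact hle
        · rw [f2 i hi, f3 j hj hj'] at he'; have := b3 ⟨i, hi⟩; omega
        · rw [f2 i hi, f4 j hj hj'] at he'; have := b3 ⟨i, hi⟩; omega
        · rw [f3 i hi hi', f1 j hj] at he'; have := b1 j; omega
        · rw [f3 i hi hi', f2 j hj] at he'; have := b3 ⟨j, hj⟩; omega
        · rw [f3 i hi hi', f3 j hj hj'] at he'
          exact v2 i j hij hle hi hj (Fin.ext (by omega))
        · rw [f3 i hi hi', f4 j hj hj'] at he'; have := b2 i; omega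
        · rw [f4 i hi hi', f1 j hj] at he'; have := b1 j; omega
        · rw [f4 i hi hi', f2 j hj] at he'; have := b3 ⟨j, hj⟩; omega
        · rw [f4 i hi hi', f3 j hj hj'] at he'; have := b2 j; omega
        · exact hJ i j hij hi' hj' hle
      · obtain ⟨hj', _, hi'⟩ := ext i j hle
        have hj : t m < t j := by linarith
        rw [f4 j hj hj'] at he'
        rcases cases4 i with hi | hi | ⟨hi, hi''⟩ | ⟨hi, hi''⟩
        · rw [f1 i hi] at he'; have := b1 i; omega
        · rw [f2 i hi] at he'; have := b3 ⟨i, hi⟩; omega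
        · rw [f3 i hi hi''] at he'; have := b2 i; omega
        · exact hi'.ne hi''
    · push Not at hI
      obtain ⟨C3, hC3⟩ := planar4 N hN (ι := {i : Fin n // t i = t m}) (fun i => c i.1)
        (fun i => p i.1) (fun i => hc i.1) hCM
      have b3 : ∀ i, (C3 i).1 < 4 := fun i => (C3 i).2
      set f : Fin n → ℕ := fun i => if h1 : t i < t m then (C1 i).1 else
        if h2 : t i = t m then 2 + (C3 ⟨i, h2⟩).1 else 6 + (C2 i).1 with hf
      have f1 : ∀ i, t i < t m → f i = (C1 i).1 := by
        intro i hi; simp only [hf]; rw [dif_pos hi]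
      have f2 : ∀ i (hi : t i = t m), f i = 2 + (C3 ⟨i, hi⟩).1 := by
        intro i hi; simp only [hf]; rw [dif_neg hi.not_lt, dif_pos hi]
      have f3 : ∀ i, t m < t i → f i = 6 + (C2 i).1 := by
        intro i hi; simp only [hf]; rw [dif_neg hi.not_gt, dif_neg hi.ne']
      have hf8 : ∀ i, f i < 8 := by
        intro i
        rcases lt_trichotomy (t i) (t m) with h1 | h1 | h1
        · rw [f1 i h1]; have := b1 i; omega
        · rw [f2 i h1]; have := b3 ⟨i, h1⟩; omega
        · rw [f3 i h1]; have := b2 i; omega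
      refine ⟨fun i => ⟨f i, hf8 i⟩, fun i j hij hle he => ?_⟩
      have he' : f i = f j := congrArg Fin.val he
      rcases hle with hle | hle
      · rcases lt_trichotomy (t i) (t m) with hi | hi | hi <;>
          rcases lt_trichotomy (t j) (t m) with hj | hj | hj
        · rw [f1 i hi, f1 j hj] at he'
          exact v1 i j hij hle hi hj (Fin.ext he')
        · rw [f1 i hi, f2 j hj] at he'; have := b1 i; omega
        · rw [f1 i hi, f3 j hj] at he'; have := b1 i; omega
        · rw [f2 i hi, f1 j hj] at he'; have := b1 j; omega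
        · rw [f2 i hi, f2 j hj] at he'
          refine hC3 ⟨i, hi⟩ ⟨j, hj⟩ (fun h => hij (congrArg Subtype.val h)) ?_
            (Fin.ext (by omega))
          rw [hi, hj, sub_self, abs_zero, add_zero] at hle
          exact hle
        · rw [f2 i hi, f3 j hj] at he'; have := b3 ⟨i, hi⟩; omega
        · rw [f3 i hi, f1 j hj] at he'; have := b1 j; omega
        · rw [f3 i hi, f2 j hj] at he'; have := b3 ⟨j, hj⟩; omega
        · rw [f3 i hi, f3 j hj] at he'
          exact v2 i j hij hle hi hj (Fin.ext (by omega))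
      · obtain ⟨hj', hi', hi''⟩ := ext i j hle
        have him := hI i hi'
        rcases (hM m).eq_or_lt with hmM | hmM
        · have hi : t i < t m := by linarith
          have hj : t j = t m := by linarith
          rw [f1 i hi, f2 j hj] at he'; have := b1 i; omega
        · have hj : t m < t j := by linarith
          rw [f3 j hj] at he'
          rcases him.lt_or_eq with hi | hi
          · rw [f1 i hi] at he'; have := b1 i; omega
          · rw [f2 i hi] at he'; have := b3 ⟨i, hi⟩; omega
  · push Not at hbad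
    obtain ⟨C⟩ := hbad M
    have b : ∀ i, (C i).1 < 2 := fun i => (C i).2
    set f : Fin n → ℕ := fun i => if t i = t M then (C i).1 else 2 + (C i).1 with hf
    have f1 : ∀ i, t i = t M → f i = (C i).1 := by
      intro i hi; simp only [hf]; rw [if_pos hi]
    have f2 : ∀ i, t i ≠ t M → f i = 2 + (C i).1 := by
      intro i hi; simp only [hf]; rw [if_neg hi]
    have hf8 : ∀ i, f i < 8 := by
      intro i
      have := b i
      by_cases hi : t i = t M
      · rw [f1 i hi]; omega
      · rw [f2 i hi]; omega
    refine ⟨fun i => ⟨f i, hf8 i⟩, fun i j hij hle he => ?_⟩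
    have he' : f i = f j := congrArg Fin.val he
    rcases hle with hle | hle
    · have hv : C i ≠ C j := C.valid (show (gr N c t p fun j => t j ≤ t M).Adj i j from
        ⟨hij, hM i, hM j, hle⟩)
      have hv' : (C i).1 ≠ (C j).1 := fun h => hv (Fin.ext h)
      have := b i
      have := b j
      by_cases hi : t i = t M <;> by_cases hj : t j = t M
      · rw [f1 i hi, f1 j hj] at he'; omega
      · rw [f1 i hi, f2 j hj] at he'; omega
      · rw [f2 i hi, f1 j hj] at he'; omega
      · rw [f2 i hi, f2 j hj] at he'; omega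
    · obtain ⟨hj', _, hi'⟩ := ext i j hle
      rw [f1 j hj', f2 i hi'.ne] at he'
      have := b j
      omega

end Pool.Agent.DCone
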