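import Mathlib

/-!
# Four points of the plane: the parity identity
-/

set_option autoImplicit false

namespace Pool.Agent.DCone

/-- a real sequence with sum zero and first moment zero has at least two changes of sign -/
lemma sc {x1 x2 x3 x4 d1 d2 d3 d4 : ℝ} (h12 : x1 < x2) (h23 : x2 < x3) (h34 : x3 < x4)
    (s : d1 + d2 + d3 + d4 = 0) (t : d1 * x1 + d2 * x2 + d3 * x3 + d4 * x4 = 0) :
    (0 < d1 → 0 < d2 → 0 < d3 → False) ∧ (0 < d1 → 0 < d2 → d3 < 0 → d4 < 0 → False) ∧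
    (0 < d1 → d2 < 0 → d3 < 0 → d4 < 0 → False) ∧ (d1 < 0 → d2 < 0 → d3 < 0 → False) ∧
    (d1 < 0 → d2 < 0 → 0 < d3 → 0 < d4 → False) ∧
    (d1 < 0 → 0 < d2 → 0 < d3 → 0 < d4 → False) := by
  have h13 := h12.trans h23
  have h24 := h23.trans h34
  have h14 := h12.trans h24
  have e4 : d1 * (x4 - x1) + d2 * (x4 - x2) + d3 * (x4 - x3) = 0 := by
    linear_combination x4 * s - t
  have e2 : d1 * (x2 - x1) = d3 * (x3 - x2) + d4 * (x4 - x2) := by
    linear_combination x2 * s - t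
  have e1 : d2 * (x2 - x1) + d3 * (x3 - x1) + d4 * (x4 - x1) = 0 := by
    linear_combination t - x1 * s
  refine ⟨fun a1 a2 a3 => ?_, fun a1 a2 a3 a4 => ?_, fun a1 a2 a3 a4 => ?_, fun a1 a2 a3 => ?_,
    fun a1 a2 a3 a4 => ?_, fun a1 a2 a3 a4 => ?_⟩
  · linarith [mul_pos a1 (sub_pos.2 h14), mul_pos a2 (sub_pos.2 h24), mul_pos a3 (sub_pos.2 h34)]
  · linarith [mul_pos a1 (sub_pos.2 h12), mul_neg_of_neg_of_pos a3 (sub_pos.2 h23),
      mul_neg_of_neg_of_pos a4 (sub_pos.2 h24)]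
  · linarith [mul_neg_of_neg_of_pos a2 (sub_pos.2 h12), mul_neg_of_neg_of_pos a3 (sub_pos.2 h13),
      mul_neg_of_neg_of_pos a4 (sub_pos.2 h14)]
  · linarith [mul_neg_of_neg_of_pos a1 (sub_pos.2 h14), mul_neg_of_neg_of_pos a2 (sub_pos.2 h24),
      mul_neg_of_neg_of_pos a3 (sub_pos.2 h34)]
  · linarith [mul_neg_of_neg_of_pos a1 (sub_pos.2 h12), mul_pos a3 (sub_pos.2 h23),
      mul_pos a4 (sub_pos.2 h24)]
  · linarith [mul_pos a2 (sub_pos.2 h12), mul_pos a3 (sub_pos.2 h13), mul_pos a4 (sub_pos.2 h14)]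

lemma pos_out {a b c : ℝ} (h : a < b ∧ a < c ∨ b < a ∧ c < a) : (0 < (a - b) * (a - c)) := by
  rcases h with ⟨h1, h2⟩ | ⟨h1, h2⟩
  · exact mul_pos_of_neg_of_neg (sub_neg.2 h1) (sub_neg.2 h2)
  · exact mul_pos (sub_pos.2 h1) (sub_pos.2 h2)

lemma not_out {a b c : ℝ} (h : b < a ∧ a < c) : ¬ (0 < (a - b) * (a - c)) := by
  have := mul_neg_of_pos_of_neg (sub_pos.2 h.1) (sub_neg.2 h.2)
  linarith

lemma core {xi xk xj xl di dk dj dl : ℝ} (hik : xi < xk) (hjl : xj < xl)
    (e1 : xi ≠ xj) (e2 : xi ≠ xl) (e3 : xk ≠ xj) (e4 : xk ≠ xl)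
    (s : di + dk + dj + dl = 0) (t : di * xi + dk * xk + dj * xj + dl * xl = 0)
    (n1 : di ≠ 0) (n2 : dk ≠ 0) (n3 : dj ≠ 0) (n4 : dl ≠ 0)
    (hex1 : 0 < di → dk < 0 → 0 < dj → dl < 0 → False)
    (hex2 : 0 < di → dk < 0 → dj < 0 → 0 < dl → False)
    (hex3 : di < 0 → 0 < dk → 0 < dj → dl < 0 → False)
    (hex4 : di < 0 → 0 < dk → dj < 0 → 0 < dl → False) :
    (if dl < 0 ∧ 0 < (xj - xi) * (xj - xk) then (1 : ZMod 2) else 0) +
    (if 0 < dj ∧ 0 < (xl - xi) * (xl - xk) then 1 else 0) +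
    ((if 0 < dk ∧ 0 < (xi - xj) * (xi - xl) then 1 else 0) +
    (if di < 0 ∧ 0 < (xk - xj) * (xk - xl) then 1 else 0)) = 1 := by
  have two : (1 : ZMod 2) + 1 = 0 := by decide
  rcases lt_or_gt_of_ne e3 with h3 | h3
  · -- i < k < j < l
    obtain ⟨q1, q2, q3, q4, q5, q6⟩ := sc hik h3 hjl (d1 := di) (d2 := dk) (d3 := dj) (d4 := dl)
      (by linarith) (by linarith)
    have o1 := pos_out (a := xj) (b := xi) (c := xk) (Or.inr ⟨hik.trans h3, h3⟩)
    have o2 := pos_out (a := xl) (b := xi) (c := xk) (Or.inr ⟨hik.trans (h3.trans hjl), h3.trans hjl⟩)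
    have o3 := pos_out (a := xi) (b := xj) (c := xl) (Or.inl ⟨hik.trans h3, hik.trans (h3.trans hjl)⟩)
    have o4 := pos_out (a := xk) (b := xj) (c := xl) (Or.inl ⟨h3, h3.trans hjl⟩)
    rcases lt_or_gt_of_ne n1 with a1 | a1 <;> rcases lt_or_gt_of_ne n2 with a2 | a2 <;>
    rcases lt_or_gt_of_ne n3 with a3 | a3 <;> rcases lt_or_gt_of_ne n4 with a4 | a4 <;>
    first
    | exact (q1 a1 a2 a3).elim | exact (q2 a1 a2 a3 a4).elim | exact (q3 a1 a2 a3 a4).elim
    | exact (q4 a1 a2 a3).elim | exact (q5 a1 a2 a3 a4).elim | exact (q6 a1 a2 a3 a4).elim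
    | exact (hex1 a1 a2 a3 a4).elim | exact (hex2 a1 a2 a3 a4).elim
    | exact (hex3 a1 a2 a3 a4).elim | exact (hex4 a1 a2 a3 a4).elim
    | (simp only [o1, o2, o3, o4, a1, a2, a3, a4, a1.not_gt, a2.not_gt, a3.not_gt, a4.not_gt,
        and_true, if_true, if_false]; decide)
  · rcases lt_or_gt_of_ne e2 with h2 | h2
    · rcases lt_or_gt_of_ne e1 with h1 | h1
      · rcases lt_or_gt_of_ne e4 with h4 | h4
        · -- i < j < k < l
          obtain ⟨q1, q2, q3, q4, q5, q6⟩ := sc h1 h3 h4 (d1 := di) (d2 := dj) (d3 := dk) (d4 := dl)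
            (by linarith) (by linarith)
          have o1 := not_out (a := xj) (b := xi) (c := xk) ⟨h1, h3⟩
          have o2 := pos_out (a := xl) (b := xi) (c := xk) (Or.inr ⟨h2, h4⟩)
          have o3 := pos_out (a := xi) (b := xj) (c := xl) (Or.inl ⟨h1, h2⟩)
          have o4 := not_out (a := xk) (b := xj) (c := xl) ⟨h3, h4⟩
          rcases lt_or_gt_of_ne n1 with a1 | a1 <;> rcases lt_or_gt_of_ne n2 with a2 | a2 <;>
          rcases lt_or_gt_of_ne n3 with a3 | a3 <;> rcases lt_or_gt_of_ne n4 with a4 | a4 <;>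
          first
          | exact (q1 a1 a3 a2).elim | exact (q2 a1 a3 a2 a4).elim | exact (q3 a1 a3 a2 a4).elim
          | exact (q4 a1 a3 a2).elim | exact (q5 a1 a3 a2 a4).elim | exact (q6 a1 a3 a2 a4).elim
          | exact (hex1 a1 a2 a3 a4).elim | exact (hex2 a1 a2 a3 a4).elim
          | exact (hex3 a1 a2 a3 a4).elim | exact (hex4 a1 a2 a3 a4).elim
          | (simp only [o1, o2, o3, o4, a1, a2, a3, a4, a1.not_gt, a2.not_gt, a3.not_gt, a4.not_gt,
              and_true, and_false, if_true, if_false]; decide)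
        · -- i < j < l < k
          obtain ⟨q1, q2, q3, q4, q5, q6⟩ := sc h1 hjl h4 (d1 := di) (d2 := dj) (d3 := dl) (d4 := dk)
            (by linarith) (by linarith)
          have o1 := not_out (a := xj) (b := xi) (c := xk) ⟨h1, h3⟩
          have o2 := not_out (a := xl) (b := xi) (c := xk) ⟨h2, h4⟩
          have o3 := pos_out (a := xi) (b := xj) (c := xl) (Or.inl ⟨h1, h2⟩)
          have o4 := pos_out (a := xk) (b := xj) (c := xl) (Or.inr ⟨h3, h4⟩)
          rcases lt_or_gt_of_ne n1 with a1 | a1 <;> rcases lt_or_gt_of_ne n2 with a2 | a2 <;>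
          rcases lt_or_gt_of_ne n3 with a3 | a3 <;> rcases lt_or_gt_of_ne n4 with a4 | a4 <;>
          first
          | exact (q1 a1 a3 a4).elim | exact (q2 a1 a3 a4 a2).elim | exact (q3 a1 a3 a4 a2).elim
          | exact (q4 a1 a3 a4).elim | exact (q5 a1 a3 a4 a2).elim | exact (q6 a1 a3 a4 a2).elim
          | exact (hex1 a1 a2 a3 a4).elim | exact (hex2 a1 a2 a3 a4).elim
          | exact (hex3 a1 a2 a3 a4).elim | exact (hex4 a1 a2 a3 a4).elim
          | (simp only [o1, o2, o3, o4, a1, a2, a3, a4, a1.not_gt, a2.not_gt, a3.not_gt, a4.not_gt,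
              and_true, and_false, if_true, if_false]; decide)
      · rcases lt_or_gt_of_ne e4 with h4 | h4
        · -- j < i < k < l
          obtain ⟨q1, q2, q3, q4, q5, q6⟩ := sc h1 hik h4 (d1 := dj) (d2 := di) (d3 := dk) (d4 := dl)
            (by linarith) (by linarith)
          have o1 := pos_out (a := xj) (b := xi) (c := xk) (Or.inl ⟨h1, h3⟩)
          have o2 := pos_out (a := xl) (b := xi) (c := xk) (Or.inr ⟨h2, h4⟩)
          have o3 := not_out (a := xi) (b := xj) (c := xl) ⟨h1, h2⟩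
          have o4 := not_out (a := xk) (b := xj) (c := xl) ⟨h3, h4⟩
          rcases lt_or_gt_of_ne n1 with a1 | a1 <;> rcases lt_or_gt_of_ne n2 with a2 | a2 <;>
          rcases lt_or_gt_of_ne n3 with a3 | a3 <;> rcases lt_or_gt_of_ne n4 with a4 | a4 <;>
          first
          | exact (q1 a3 a1 a2).elim | exact (q2 a3 a1 a2 a4).elim | exact (q3 a3 a1 a2 a4).elim
          | exact (q4 a3 a1 a2).elim | exact (q5 a3 a1 a2 a4).elim | exact (q6 a3 a1 a2 a4).elim
          | exact (hex1 a1 a2 a3 a4).elim | exact (hex2 a1 a2 a3 a4).elim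
          | exact (hex3 a1 a2 a3 a4).elim | exact (hex4 a1 a2 a3 a4).elim
          | (simp only [o1, o2, o3, o4, a1, a2, a3, a4, a1.not_gt, a2.not_gt, a3.not_gt, a4.not_gt,
              and_true, and_false, if_true, if_false]; decide)
        · -- j < i < l < k
          obtain ⟨q1, q2, q3, q4, q5, q6⟩ := sc h1 h2 h4 (d1 := dj) (d2 := di) (d3 := dl) (d4 := dk)
            (by linarith) (by linarith)
          have o1 := pos_out (a := xj) (b := xi) (c := xk) (Or.inl ⟨h1, h3⟩)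
          have o2 := not_out (a := xl) (b := xi) (c := xk) ⟨h2, h4⟩
          have o3 := not_out (a := xi) (b := xj) (c := xl) ⟨h1, h2⟩
          have o4 := pos_out (a := xk) (b := xj) (c := xl) (Or.inr ⟨h3, h4⟩)
          rcases lt_or_gt_of_ne n1 with a1 | a1 <;> rcases lt_or_gt_of_ne n2 with a2 | a2 <;>
          rcases lt_or_gt_of_ne n3 with a3 | a3 <;> rcases lt_or_gt_of_ne n4 with a4 | a4 <;>
          first
          | exact (q1 a3 a1 a4).elim | exact (q2 a3 a1 a4 a2).elim | exact (q3 a3 a1 a4 a2).elim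
          | exact (q4 a3 a1 a4).elim | exact (q5 a3 a1 a4 a2).elim | exact (q6 a3 a1 a4 a2).elim
          | exact (hex1 a1 a2 a3 a4).elim | exact (hex2 a1 a2 a3 a4).elim
          | exact (hex3 a1 a2 a3 a4).elim | exact (hex4 a1 a2 a3 a4).elim
          | (simp only [o1, o2, o3, o4, a1, a2, a3, a4, a1.not_gt, a2.not_gt, a3.not_gt, a4.not_gt,
              and_true, and_false, if_true, if_false]; decide)
    · -- j < l < i < k
      obtain ⟨q1, q2, q3, q4, q5, q6⟩ := sc hjl h2 hik (d1 := dj) (d2 := dl) (d3 := di) (d4 := dk)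
        (by linarith) (by linarith)
      have o1 := pos_out (a := xj) (b := xi) (c := xk) (Or.inl ⟨hjl.trans h2, hjl.trans (h2.trans hik)⟩)
      have o2 := pos_out (a := xl) (b := xi) (c := xk) (Or.inl ⟨h2, h2.trans hik⟩)
      have o3 := pos_out (a := xi) (b := xj) (c := xl) (Or.inr ⟨hjl.trans h2, h2⟩)
      have o4 := pos_out (a := xk) (b := xj) (c := xl) (Or.inr ⟨hjl.trans (h2.trans hik), h2.trans hik⟩)
      rcases lt_or_gt_of_ne n1 with a1 | a1 <;> rcases lt_or_gt_of_ne n2 with a2 | a2 <;>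
      rcases lt_or_gt_of_ne n3 with a3 | a3 <;> rcases lt_or_gt_of_ne n4 with a4 | a4 <;>
      first
      | exact (q1 a3 a4 a1).elim | exact (q2 a3 a4 a1 a2).elim | exact (q3 a3 a4 a1 a2).elim
      | exact (q4 a3 a4 a1).elim | exact (q5 a3 a4 a1 a2).elim | exact (q6 a3 a4 a1 a2).elim
      | exact (hex1 a1 a2 a3 a4).elim | exact (hex2 a1 a2 a3 a4).elim
      | exact (hex3 a1 a2 a3 a4).elim | exact (hex4 a1 a2 a3 a4).elim
      | (simp only [o1, o2, o3, o4, a1, a2, a3, a4, a1.not_gt, a2.not_gt, a3.not_gt, a4.not_gt,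
          and_true, and_false, if_true, if_false]; decide)

end Pool.Agent.DCone
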