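import Pool.Agent.DCone.Fam

/-!
# The polar body of a norm of the plane and its extreme points
-/

set_option autoImplicit false

open Filter Topology

namespace Pool.Agent.DCone

/-- the linear form with coefficients `u` -/
def L (u y : ℝ × ℝ) : ℝ := u.1 * y.1 + u.2 * y.2

/-- determinant -/
def dd (u v : ℝ × ℝ) : ℝ := u.1 * v.2 - u.2 * v.1

lemma L_add (u y z : ℝ × ℝ) : L u (y + z) = L u y + L u z := by simp [L]; ring
lemma L_sub (u y z : ℝ × ℝ) : L u (y - z) = L u y - L u z := by simp [L]; ring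
lemma L_neg (u y : ℝ × ℝ) : L (-u) y = - L u y := by simp [L]; ring
lemma L_comb (α β : ℝ) (u v y : ℝ × ℝ) : L (α • u + β • v) y = α * L u y + β * L v y := by
  simp [L]; ring
lemma L_smul (α : ℝ) (u y : ℝ × ℝ) : L (α • u) y = α * L u y := by
  simp [L]; ring
lemma dd_neg_right (u v : ℝ × ℝ) : dd u (-v) = - dd u v := by simp only [dd, Prod.fst_neg, Prod.snd_neg]; ring
lemma dd_neg_left (u v : ℝ × ℝ) : dd (-u) v = - dd u v := by simp only [dd, Prod.fst_neg, Prod.snd_neg]; ring
lemma dd_swap (u v : ℝ × ℝ) : dd u v = - dd v u := by simp only [dd]; ring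
lemma dd_self (u : ℝ × ℝ) : dd u u = 0 := by simp only [dd]; ring

/-- Cramer -/
lemma cramer {u v w : ℝ × ℝ} (h : dd u v ≠ 0) :
    w = (dd w v / dd u v) • u + (dd u w / dd u v) • v := by
  have e : dd u v = u.1 * v.2 - u.2 * v.1 := rfl
  ext
  · simp only [Prod.fst_add, Prod.smul_fst, smul_eq_mul]
    rw [div_mul_eq_mul_div, div_mul_eq_mul_div, ← add_div, eq_div_iff h]
    simp only [dd]; ring
  · simp only [Prod.snd_add, Prod.smul_snd, smul_eq_mul]
    rw [div_mul_eq_mul_div, div_mul_eq_mul_div, ← add_div, eq_div_iff h]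
    simp only [dd]; ring

lemma par_smul {u v : ℝ × ℝ} (hu : u ≠ 0) (h : dd u v = 0) : ∃ κ : ℝ, v = κ • u := by
  by_cases h1 : u.1 = 0
  · have h2 : u.2 ≠ 0 := fun h2 => hu (Prod.ext h1 h2)
    refine ⟨v.2 / u.2, ?_⟩
    ext
    · simp only [dd, h1, zero_mul, zero_sub, neg_eq_zero] at h
      rcases mul_eq_zero.1 h with h3 | h3
      · exact absurd h3 h2
      · simp [h3, h1]
    · simp only [Prod.smul_snd, smul_eq_mul]; field_simp
  · refine ⟨v.1 / u.1, ?_⟩
    ext
    · simp only [Prod.smul_fst, smul_eq_mul]; field_simp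
    · simp only [Prod.smul_snd, smul_eq_mul]
      rw [div_mul_eq_mul_div, eq_div_iff h1]
      simp only [dd] at h
      linarith

/-- the polar body -/
def Po (N : Seminorm ℝ (ℝ × ℝ)) : Set (ℝ × ℝ) := {u | ∀ y, L u y ≤ N y}

variable {N : Seminorm ℝ (ℝ × ℝ)}

lemma Po_neg {u : ℝ × ℝ} (h : u ∈ Po N) : -u ∈ Po N := by
  intro y
  have := h (-y)
  rw [map_neg_eq_map] at this
  rw [L_neg]
  have e : L u (-y) = - L u y := by simp only [L, Prod.fst_neg, Prod.snd_neg]; ring
  rwa [e] at this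

lemma Po_zero : (0 : ℝ × ℝ) ∈ Po N := by
  intro y
  simp [L]

lemma Po_abs {u : ℝ × ℝ} (h : u ∈ Po N) (y : ℝ × ℝ) : |L u y| ≤ N y := by
  have h1 := h y
  have h2 := Po_neg h y
  rw [L_neg] at h2
  exact abs_le.2 ⟨by linarith, h1⟩

lemma Po_comb {u v : ℝ × ℝ} (hu : u ∈ Po N) (hv : v ∈ Po N) {α β : ℝ} (hα : 0 ≤ α) (hβ : 0 ≤ β)
    (hs : α + β ≤ 1) : α • u + β • v ∈ Po N := by
  intro y
  rw [L_comb]
  have h1 := mul_le_mul_of_nonneg_left (hu y) hα
  have h2 := mul_le_mul_of_nonneg_left (hv y) hβ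
  have h3 : 0 ≤ N y := apply_nonneg _ _
  nlinarith

lemma L_cont_left (y : ℝ × ℝ) : Continuous fun u => L u y := by
  unfold L; fun_prop

lemma Po_closed : IsClosed (Po N) := by
  have : Po N = ⋂ y, {u | L u y ≤ N y} := by ext u; simp [Po]
  rw [this]
  exact isClosed_iInter fun y => isClosed_le (L_cont_left y) continuous_const

lemma Po_compact : IsCompact (Po N) := by
  have hK : IsCompact (Set.Icc ((-N (1, 0), -N (0, 1)) : ℝ × ℝ) (N (1, 0), N (0, 1))) :=
    isCompact_Icc
  refine hK.of_isClosed_subset Po_closed fun u hu => ?_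
  have h1 := Po_abs hu (1, 0)
  have h2 := Po_abs hu (0, 1)
  have e1 : L u (1, 0) = u.1 := by simp [L]
  have e2 : L u (0, 1) = u.2 := by simp [L]
  rw [e1] at h1
  rw [e2] at h2
  exact ⟨⟨(abs_le.1 h1).1, (abs_le.1 h2).1⟩, ⟨(abs_le.1 h1).2, (abs_le.1 h2).2⟩⟩

/-- norming functional -/
lemma norming (N : Seminorm ℝ (ℝ × ℝ)) (y : ℝ × ℝ) : ∃ u ∈ Po N, L u y = N y := by
  by_cases hy0 : y = 0
  · exact ⟨0, Po_zero, by rw [hy0, map_zero]; simp [L]⟩
  set f : (ℝ × ℝ) →ₗ.[ℝ] ℝ := LinearPMap.mkSpanSingleton y (N y) hy0 with hf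
  obtain ⟨g, hg1, hg2⟩ := exists_extension_of_le_sublinear f N
    (fun a ha v => by rw [map_smul_eq_mul, Real.norm_of_nonneg ha.le])
    (fun v w => map_add_le_add N v w) (by
      rintro ⟨v, hv⟩
      obtain ⟨a, rfl⟩ := Submodule.mem_span_singleton.1 hv
      have e : f ⟨a • y, hv⟩ = a • N y := LinearPMap.mkSpanSingleton'_apply _ _ _ _ _
      rw [e]
      show a • N y ≤ N (a • y)
      rw [map_smul_eq_mul, smul_eq_mul]
      exact mul_le_mul_of_nonneg_right (le_abs_self a) (apply_nonneg _ _))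
  have hL : ∀ v, L (g (1, 0), g (0, 1)) v = g v := by
    intro v
    have e : v = v.1 • ((1, 0) : ℝ × ℝ) + v.2 • ((0, 1) : ℝ × ℝ) := by ext <;> simp
    conv_rhs => rw [e]
    rw [map_add, map_smul, map_smul]
    simp only [L, smul_eq_mul]
    ring
  have h1 : g y = N y := by
    have hm : (1 : ℝ) • y ∈ Submodule.span ℝ {y} := by
      rw [one_smul]; exact Submodule.mem_span_singleton_self y
    have h2 : g ((1 : ℝ) • y) = f ⟨(1 : ℝ) • y, hm⟩ := hg1 ⟨(1 : ℝ) • y, hm⟩
    have e : f ⟨(1 : ℝ) • y, hm⟩ = (1 : ℝ) • N y := LinearPMap.mkSpanSingleton'_apply _ _ _ _ _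
    rw [e, one_smul, one_smul] at h2
    exact h2
  exact ⟨(g (1, 0), g (0, 1)), fun v => by rw [hL]; exact hg2 v, by rw [hL, h1]⟩

/-- nonzero extreme points of the polar body -/
def Ext (N : Seminorm ℝ (ℝ × ℝ)) (w : ℝ × ℝ) : Prop :=
  w ≠ 0 ∧ w ∈ Po N ∧ ∀ u ∈ Po N, ∀ v ∈ Po N, ∀ α β : ℝ, 0 < α → 0 < β → α + β = 1 →
    w = α • u + β • v → u = w

lemma Ext.neg {w : ℝ × ℝ} (h : Ext N w) : Ext N (-w) := by
  refine ⟨neg_ne_zero.2 h.1, Po_neg h.2.1, fun u hu v hv α β hα hβ hs he => ?_⟩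
  have := h.2.2 (-u) (Po_neg hu) (-v) (Po_neg hv) α β hα hβ hs (by
    rw [smul_neg, smul_neg, ← neg_add, ← he, neg_neg])
  rw [← this, neg_neg]

/-- extreme norming functional -/
lemma norming_ext (N : Seminorm ℝ (ℝ × ℝ)) (y : ℝ × ℝ) (hy : 0 < N y) :
    ∃ u, Ext N u ∧ L u y = N y := by
  set F : Set (ℝ × ℝ) := {u | u ∈ Po N ∧ L u y = N y} with hF
  have hFc : IsCompact F := by
    refine Po_compact.of_isClosed_subset (s := Po N) ?_ fun u hu => hu.1
    exact Po_closed.inter (isClosed_eq (L_cont_left y) continuous_const)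
  have hFn : F.Nonempty := by
    obtain ⟨u, hu, hu'⟩ := norming N y
    exact ⟨u, hu, hu'⟩
  obtain ⟨w, hw⟩ := hFc.extremePoints_nonempty hFn
  rw [mem_extremePoints] at hw
  obtain ⟨⟨hw1, hw2⟩, hw3⟩ := hw
  refine ⟨w, ⟨?_, hw1, ?_⟩, hw2⟩
  · rintro rfl
    simp [L] at hw2
    linarith
  · intro u hu v hv α β hα hβ hs he
    have h1 := hu y
    have h2 := hv y
    have h3 : L w y = α * L u y + β * L v y := by rw [he, L_comb]
    rw [hw2] at h3
    have h4 : β = 1 - α := by linarith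
    have hu1 : L u y = N y := by
      by_contra hne
      have := lt_of_le_of_ne h1 hne
      nlinarith
    have hv1 : L v y = N y := by
      by_contra hne
      have := lt_of_le_of_ne h2 hne
      nlinarith
    exact (hw3 u ⟨hu, hu1⟩ v ⟨hv, hv1⟩ ⟨α, β, hα, hβ, hs, he.symm⟩).1

/-- parallel extreme points -/
lemma Ext.par {u v : ℝ × ℝ} (hu : Ext N u) (hv : Ext N v) (h : dd u v = 0) : v = u ∨ v = -u := by
  obtain ⟨κ, hκ⟩ := par_smul hu.1 h
  have key : ∀ {u v : ℝ × ℝ} (κ : ℝ), Ext N u → Ext N v → v = κ • u → 0 < κ → 1 ≤ κ := by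
    intro u v κ hu hv hκ h0
    by_contra hcon
    push Not at hcon
    have := hv.2.2 u hu.2.1 0 Po_zero κ (1 - κ) h0 (by linarith) (by ring) (by
      rw [hκ, smul_zero, add_zero])
    rw [← this] at hκ
    have h1 : (1 - κ) • u = 0 := by rw [sub_smul, one_smul, ← hκ, sub_self]
    rcases smul_eq_zero.1 h1 with h2 | h2
    · linarith
    · exact hu.1 h2
  have key2 : ∀ {u v : ℝ × ℝ} (κ : ℝ), Ext N u → Ext N v → v = κ • u → 0 < κ → v = u := by
    intro u v κ hu hv hκ h0
    have h1 := key κ hu hv hκ h0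
    have h2 := key κ⁻¹ hv hu (by rw [hκ, smul_smul, inv_mul_cancel₀ h0.ne', one_smul])
      (inv_pos.2 h0)
    have h3 : κ ≤ 1 := by
      by_contra hcon
      push Not at hcon
      have := inv_lt_one_of_one_lt₀ hcon
      linarith
    rw [hκ, le_antisymm h3 h1, one_smul]
  rcases lt_trichotomy κ 0 with h0 | h0 | h0
  · right
    exact key2 (-κ) hu.neg hv (by rw [hκ]; module) (by linarith)
  · rw [h0, zero_smul] at hκ
    exact absurd hκ hv.1
  · left
    exact key2 κ hu hv hκ h0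

/-- no crossing of an extreme point -/
lemma Ext.cross {w u v z : ℝ × ℝ} {C : ℝ} (hC : 0 < C) (hw : Ext N w) (hu : u ∈ Po N)
    (hv : v ∈ Po N) (φw : 0 ≤ C + L w z) (φu : C + L u z ≤ 0) (φv : C + L v z ≤ 0) {α β : ℝ}
    (hα : 0 ≤ α) (hβ : 0 ≤ β) (h : w = α • u + β • v) : w = u ∨ w = v := by
  have h1 : α + β ≤ 1 := by
    rw [h, L_comb] at φw
    have h2 := mul_nonpos_of_nonneg_of_nonpos hα φu
    have h3 := mul_nonpos_of_nonneg_of_nonpos hβ φv
    by_contra hcon
    push Not at hcon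
    nlinarith
  rcases h1.eq_or_lt with h1 | h1
  · rcases hα.eq_or_lt with h2 | h2
    · right
      rw [h, ← h2, zero_smul, zero_add]
      rw [← h2, zero_add] at h1
      rw [h1, one_smul]
    · rcases hβ.eq_or_lt with h3 | h3
      · left
        rw [h, ← h3, zero_smul, add_zero]
        rw [← h3, add_zero] at h1
        rw [h1, one_smul]
      · left
        exact (hw.2.2 u hu v hv α β h2 h3 h1 h).symm
  · exfalso
    have h0 : 0 < α + β := by
      rcases (add_nonneg hα hβ).eq_or_lt with h2 | h2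
      · exfalso
        have a1 : α = 0 := by linarith
        have a2 : β = 0 := by linarith
        rw [a1, a2, zero_smul, zero_smul, add_zero] at h
        exact hw.1 h
      · exact h2
    set w' := (α / (α + β)) • u + (β / (α + β)) • v with hw'
    have hwP : w' ∈ Po N := Po_comb hu hv (div_nonneg hα h0.le) (div_nonneg hβ h0.le)
      (by rw [← add_div, div_self h0.ne'])
    have e : w = (α + β) • w' := by
      rw [hw', smul_add, smul_smul, smul_smul, mul_div_cancel₀ _ h0.ne', mul_div_cancel₀ _ h0.ne',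
        h]
    have e2 := hw.2.2 w' hwP 0 Po_zero (α + β) (1 - (α + β)) h0 (by linarith) (by ring) (by
      rw [smul_zero, add_zero]; exact e)
    rw [e2] at e
    have h3 : (1 - (α + β)) • w = 0 := by rw [sub_smul, one_smul, ← e, sub_self]
    rcases smul_eq_zero.1 h3 with h4 | h4
    · linarith
    · exact hw.1 h4

/-- **Classification**: three positively spanning extreme points, or a parallelogram. -/
lemma classify (N : Seminorm ℝ (ℝ × ℝ)) (hN : ∀ v, N v = 0 → v = 0) :
    (∃ a b c, Ext N a ∧ Ext N b ∧ Ext N c ∧ 0 < dd a b ∧ 0 < dd b c ∧ 0 < dd c a) ∨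
    ∃ a b, 0 < dd a b ∧ ∀ y, N y = max |L a y| |L b y| := by
  have hpos : ∀ v, v ≠ 0 → 0 < N v := fun v hv =>
    lt_of_le_of_ne (apply_nonneg _ _) fun h => hv (hN v h.symm)
  obtain ⟨a, ha, ha'⟩ := norming_ext N (1, 0) (hpos _ (by simp))
  obtain ⟨b, hb, hb'⟩ := norming_ext N (-a.2, a.1) (hpos _ (by
    intro h
    apply ha.1
    have h1 := congrArg Prod.fst h
    have h2 := congrArg Prod.snd h
    exact Prod.ext h2 (neg_eq_zero.1 h1)))
  have hab : 0 < dd a b := by
    have : dd a b = L b (-a.2, a.1) := by simp only [dd, L]; ring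
    rw [this, hb']
    refine hpos _ ?_
    intro h
    apply ha.1
    have h1 := congrArg Prod.fst h
    have h2 := congrArg Prod.snd h
    exact Prod.ext h2 (neg_eq_zero.1 h1)
  by_cases hall : ∀ e, Ext N e → e = a ∨ e = -a ∨ e = b ∨ e = -b
  · right
    refine ⟨a, b, hab, fun y => ?_⟩
    apply le_antisymm
    · by_cases hy : y = 0
      · rw [hy, map_zero]
        exact le_max_of_le_left (abs_nonneg _)
      · obtain ⟨e, he, he'⟩ := norming_ext N y (hpos y hy)
        rw [← he']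
        rcases hall e he with h | h | h | h
        · rw [h]; exact le_max_of_le_left (le_abs_self _)
        · rw [h, L_neg]; exact le_max_of_le_left (neg_le_abs _)
        · rw [h]; exact le_max_of_le_right (le_abs_self _)
        · rw [h, L_neg]; exact le_max_of_le_right (neg_le_abs _)
    · exact max_le (Po_abs ha.2.1 y) (Po_abs hb.2.1 y)
  · left
    push Not at hall
    obtain ⟨e, he, h1, h2, h3, h4⟩ := hall
    have hbe : dd b e ≠ 0 := fun h => by
      rcases hb.par he h with h | h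
      · exact h3 h
      · exact h4 h
    have hea : dd e a ≠ 0 := fun h => by
      rcases ha.par he (by rw [dd_swap, h, neg_zero]) with h | h
      · exact h1 h
      · exact h2 h
    rcases lt_or_gt_of_ne hbe with s | s <;> rcases lt_or_gt_of_ne hea with r | r
    · exact ⟨a, b, -e, ha, hb, he.neg, hab, by rw [dd_neg_right]; linarith,
        by rw [dd_neg_left]; linarith⟩
    · exact ⟨b, -a, e, hb, ha.neg, he, by rw [dd_neg_right, dd_swap b a]; linarith,
        by rw [dd_neg_left, dd_swap a e]; linarith, by rw [dd_swap]; linarith⟩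
    · exact ⟨-b, a, e, hb.neg, ha, he, by rw [dd_neg_left, dd_swap b a]; linarith,
        by rw [dd_swap]; linarith, by rw [dd_neg_right, dd_swap e b]; linarith⟩
    · exact ⟨a, b, e, ha, hb, he, hab, s, r⟩

end Pool.Agent.DCone
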