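import Pool.Agent.DCone.Pert
import Pool.Agent.C1G.Pc

/-!
# Eight colours
-/

set_option autoImplicit false

open Filter Topology

namespace Pool.Agent.DCone

open C1E.Planar

/-- coordinates -/
def co : EuclideanSpace ℝ (Fin 2) →ₗ[ℝ] ℝ × ℝ where
  toFun y := (y 0, y 1)
  map_add' y z := rfl
  map_smul' a y := rfl

/-- the inverse -/
def oc (v : ℝ × ℝ) : EuclideanSpace ℝ (Fin 2) := WithLp.toLp 2 ![v.1, v.2]

lemma co_oc (v : ℝ × ℝ) : co (oc v) = v := by
  ext <;> simp [co, oc]

lemma co_inj {y : EuclideanSpace ℝ (Fin 2)} (h : co y = 0) : y = 0 := by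
  have h1 : y 0 = 0 := congrArg Prod.fst h
  have h2 : y 1 = 0 := congrArg Prod.snd h
  ext i
  fin_cases i
  · simpa using h1
  · simpa using h2

lemma sem_cont {E : Type} [NormedAddCommGroup E] [NormedSpace ℝ E] [FiniteDimensional ℝ E]
    (P : Seminorm ℝ E) : Continuous P :=
  (ConvexOn.locallyLipschitz P.convexOn).continuous

lemma lt_of_interior {E : Type} [NormedAddCommGroup E] [NormedSpace ℝ E] (P : Seminorm ℝ E)
    {x y : E} {c : ℝ} (hc : 0 < c) (h : y ∈ interior {y | P (y - x) ≤ c}) : P (y - x) < c := by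
  have hcont : Tendsto (fun δ : ℝ => y + δ • (y - x)) (𝓝[>] 0) (𝓝 y) := by
    have : Continuous fun δ : ℝ => y + δ • (y - x) := by fun_prop
    have h1 := this.tendsto 0
    simp only [zero_smul, add_zero] at h1
    exact h1.mono_left nhdsWithin_le_nhds
  obtain ⟨δ, h1, h2⟩ := ((hcont.eventually (mem_interior_iff_mem_nhds.1 h)).and
    self_mem_nhdsWithin).exists
  have hδ : 0 < δ := h2
  have h3 : P (y + δ • (y - x) - x) ≤ c := h1
  have e : y + δ • (y - x) - x = (1 + δ) • (y - x) := by module
  rw [e, map_smul_eq_mul, Real.norm_of_nonneg (by linarith)] at h3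
  have h0 : 0 ≤ P (y - x) := apply_nonneg _ _
  rcases h0.eq_or_lt with h4 | h4
  · rw [← h4]; exact hc
  · nlinarith

lemma mem_hom {E : Type} [NormedAddCommGroup E] [NormedSpace ℝ E] (P : Seminorm ℝ E)
    (z x y : E) {c : ℝ} (hc : 0 < c) :
    y ∈ (fun y => x + c • y) '' {y | P (y - z) ≤ 1} ↔ P (y - (x + c • z)) ≤ c := by
  constructor
  · rintro ⟨w, hw, rfl⟩
    have hw' : P (w - z) ≤ 1 := hw
    have e : x + c • w - (x + c • z) = c • (w - z) := by module
    simp only [e]
    rw [map_smul_eq_mul, Real.norm_of_nonneg hc.le]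
    calc c * P (w - z) ≤ c * 1 := by gcongr
      _ = c := mul_one c
  · intro h
    refine ⟨c⁻¹ • (y - x), ?_, ?_⟩
    · have e : c⁻¹ • (y - x) - z = c⁻¹ • (y - (x + c • z)) := by
        have : z = c⁻¹ • (c • z) := by rw [smul_smul, inv_mul_cancel₀ hc.ne', one_smul]
        conv_lhs => rw [this]
        module
      show P (c⁻¹ • (y - x) - z) ≤ 1
      rw [e, map_smul_eq_mul, Real.norm_of_nonneg (inv_pos.2 hc).le]
      calc c⁻¹ * P (y - (x + c • z)) ≤ c⁻¹ * c := by gcongr
        _ = 1 := inv_mul_cancel₀ hc.ne'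
    · show x + c • (c⁻¹ • (y - x)) = y
      rw [smul_smul, mul_inv_cancel₀ hc.ne', one_smul]; abel

/-- four colours in the plane, in terms of the norm -/
theorem planar4 (N : Seminorm ℝ (ℝ × ℝ)) (hN : ∀ v, N v = 0 → v = 0) {ι : Type} [Fintype ι]
    (c : ι → ℝ) (p : ι → ℝ × ℝ) (hc : ∀ i, 0 < c i) (h : ∀ i j, i ≠ j → N (p i - p j) ≤ c i + c j) :
    ∃ col : ι → Fin 4, ∀ i j, i ≠ j → c i + c j ≤ N (p i - p j) → col i ≠ col j := by
  classical
  set M : Seminorm ℝ (EuclideanSpace ℝ (Fin 2)) := N.comp co with hM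
  have hMc : Continuous M := sem_cont M
  have hM0 : ∀ y, M y = 0 → y = 0 := fun y hy => co_inj (hN _ hy)
  set K : Set (EuclideanSpace ℝ (Fin 2)) := {y | M (y - 0) ≤ 1} with hK
  have hcvx : Convex ℝ K := by
    have : Convex ℝ {y | y ∈ Set.univ ∧ M y ≤ 1} := M.convexOn.convex_le 1
    simpa [hK] using this
  have hcl : IsClosed K := isClosed_le (hMc.comp (by fun_prop)) continuous_const
  have hcpt : IsCompact K := by
    obtain ⟨y₀, hy₀, hmin⟩ := (isCompact_sphere (0 : EuclideanSpace ℝ (Fin 2)) 1).exists_isMinOn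
      (NormedSpace.sphere_nonempty.2 zero_le_one) hMc.continuousOn
    have hy1 : ‖y₀‖ = 1 := by simpa using hy₀
    have hm : 0 < M y₀ := by
      refine lt_of_le_of_ne (apply_nonneg _ _) fun h0 => ?_
      have := hM0 _ h0.symm
      rw [this, norm_zero] at hy1
      exact zero_ne_one hy1
    refine Metric.isCompact_of_isClosed_isBounded hcl
      (Metric.isBounded_iff_subset_closedBall 0 |>.2 ⟨(M y₀)⁻¹, fun y hy => ?_⟩)
    have hy' : M y ≤ 1 := by simpa [hK] using hy
    rw [mem_closedBall_zero_iff]
    by_cases h0 : y = 0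
    · rw [h0, norm_zero]; exact (inv_pos.2 hm).le
    · have hn : 0 < ‖y‖ := norm_pos_iff.2 h0
      have h1 : M y₀ ≤ M (‖y‖⁻¹ • y) := hmin (by
        rw [mem_sphere_zero_iff_norm, norm_smul, norm_inv, norm_norm, inv_mul_cancel₀ hn.ne'])
      rw [map_smul_eq_mul, norm_inv, norm_norm] at h1
      have h2 : M y₀ * ‖y‖ ≤ M y := by
        calc M y₀ * ‖y‖ ≤ ‖y‖⁻¹ * M y * ‖y‖ := by gcongr
          _ = M y := by field_simp
      rw [← one_div, le_div_iff₀ hm]
      linarith
  have hint : (interior K).Nonempty := by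
    refine ⟨0, mem_interior_iff_mem_nhds.2 (mem_of_superset
      ((isOpen_lt hMc continuous_const).mem_nhds (show M 0 < 1 by simp)) fun y hy => ?_)⟩
    have : M y < 1 := hy
    show M (y - 0) ≤ 1
    rw [sub_zero]; exact this.le
  have hmem : ∀ i y, y ∈ Hm K (c i) (oc (p i)) ↔ M (y - oc (p i)) ≤ c i := by
    intro i y
    have := mem_hom M 0 (oc (p i)) y (hc i)
    rw [smul_zero, add_zero] at this
    exact this
  have hMN : ∀ v i, M (oc v - oc (p i)) = N (v - p i) := by
    intro v i
    show N (co (oc v - oc (p i))) = _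
    rw [map_sub, co_oc, co_oc]
  obtain ⟨col, hcol⟩ := planar_col K hcvx hcpt hint (Fintype.card ι) ι rfl c (fun i => oc (p i)) hc
    (fun i j => by
      by_cases hij : i = j
      · subst hij
        rw [Set.inter_self]
        exact ⟨oc (p i), (hmem i _).2 (by rw [sub_self, map_zero]; exact (hc i).le)⟩
      · have hS : 0 < c i + c j := add_pos (hc i) (hc j)
        have hh := h i j hij
        refine ⟨oc ((c j / (c i + c j)) • p i + (c i / (c i + c j)) • p j), (hmem i _).2 ?_,
          (hmem j _).2 ?_⟩
        · rw [hMN]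
          have e : (c j / (c i + c j)) • p i + (c i / (c i + c j)) • p j - p i =
              (c i / (c i + c j)) • (p j - p i) := by
            have : p i = (c j / (c i + c j)) • p i + (c i / (c i + c j)) • p i := by
              rw [← add_smul, ← add_div, add_comm (c j), div_self hS.ne', one_smul]
            nth_rewrite 2 [this]
            module
          rw [e, map_smul_eq_mul, Real.norm_of_nonneg (div_pos (hc i) hS).le, map_sub_rev N]
          calc c i / (c i + c j) * N (p i - p j) ≤ c i / (c i + c j) * (c i + c j) := by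
                have := (div_pos (hc i) hS).le
                gcongr
            _ = c i := by field_simp
        · rw [hMN]
          have e : (c j / (c i + c j)) • p i + (c i / (c i + c j)) • p j - p j =
              (c j / (c i + c j)) • (p i - p j) := by
            have : p j = (c j / (c i + c j)) • p j + (c i / (c i + c j)) • p j := by
              rw [← add_smul, ← add_div, add_comm (c j), div_self hS.ne', one_smul]
            nth_rewrite 2 [this]
            module
          rw [e, map_smul_eq_mul, Real.norm_of_nonneg (div_pos (hc j) hS).le]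
          calc c j / (c i + c j) * N (p i - p j) ≤ c j / (c i + c j) * (c i + c j) := by
                have := (div_pos (hc j) hS).le
                gcongr
            _ = c j := by field_simp)
  refine ⟨col, fun i j hij hle => hcol i j hij ?_⟩
  rw [Set.eq_empty_iff_forall_notMem]
  rintro y ⟨h1, h2⟩
  have f1 : M (y - oc (p i)) < c i := lt_of_interior M (hc i) (interior_mono (fun w hw =>
    (hmem i w).1 hw) h1)
  have f2 : M (y - oc (p j)) < c j := lt_of_interior M (hc j) (interior_mono (fun w hw =>
    (hmem j w).1 hw) h2)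
  have f3 : N (p i - p j) ≤ M (y - oc (p i)) + M (y - oc (p j)) := by
    rw [← hMN]
    have : oc (p i) - oc (p j) = (y - oc (p j)) - (y - oc (p i)) := by abel
    rw [this, add_comm]
    exact map_sub_le_add M _ _
  linarith

/-- **Eight colours** for families with `N (pᵢ - pⱼ) + |tᵢ - tⱼ| ≤ cᵢ + cⱼ`. -/
theorem fam8 (N : Seminorm ℝ (ℝ × ℝ)) (hN : ∀ v, N v = 0 → v = 0) {n : ℕ}
    (c t : Fin n → ℝ) (p : Fin n → ℝ × ℝ) (hc : ∀ i, 0 < c i)
    (h : ∀ i j, i ≠ j → N (p i - p j) + |t i - t j| ≤ c i + c j) :
    ∃ col : Fin n → Fin 8, ∀ i j, i ≠ j → c i + c j ≤ N (p i - p j) + |t i - t j| →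
      col i ≠ col j := by
  classical
  set Bad : Finset (Fin n) := Finset.univ.filter fun i =>
    ¬ (gr N c t p fun j => t j ≤ t i).Colorable 2 with hBad
  rcases Bad.eq_empty_or_nonempty with hb | hb
  · -- everything is bipartite
    rcases isEmpty_or_nonempty (Fin n) with hem | hne
    · exact ⟨fun i => (hem.false i).elim, fun i => (hem.false i).elim⟩
    · obtain ⟨m, hm⟩ := Finite.exists_max t
      have h1 : (gr N c t p fun j => t j ≤ t m).Colorable 2 := by
        by_contra hcon
        have : m ∈ Bad := by simp [hBad, hcon]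
        rw [hb] at this
        simp at this
      obtain ⟨C⟩ := h1
      refine ⟨fun i => Fin.castLE (by norm_num) (C i), fun i j hij hle he => ?_⟩
      exact C.valid (show (gr N c t p fun j => t j ≤ t m).Adj i j from
        ⟨hij, hm i, hm j, hle⟩) (Fin.castLE_injective _ he)
  · obtain ⟨m, hmB, hmin⟩ := Finset.exists_min_image Bad t hb
    have hm1 : ¬ (gr N c t p fun j => t j ≤ t m).Colorable 2 := by
      simpa [hBad] using hmB
    have hup : (gr N c t p fun i => t m < t i).Colorable 2 :=
      (level N c t p h (t m)).resolve_left hm1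
    have hlo : (gr N c t p fun i => t i < t m).Colorable 2 := by
      rcases (Finset.univ.filter fun i => t i < t m).eq_empty_or_nonempty with he | he
      · refine ⟨⟨fun _ => 0, fun {i j} hij => ?_⟩⟩
        have : i ∈ (Finset.univ.filter fun i => t i < t m) := by simp [hij.2.1]
        rw [he] at this
        simp at this
      · obtain ⟨k, hk, hkmax⟩ := Finset.exists_max_image _ t he
        have hk' : t k < t m := by simpa using hk
        have h1 : (gr N c t p fun j => t j ≤ t k).Colorable 2 := by
          by_contra hcon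
          have : k ∈ Bad := by simp [hBad, hcon]
          exact absurd (hmin k this) (not_le.2 hk')
        obtain ⟨C⟩ := h1
        refine ⟨⟨C, fun {i j} hij => ?_⟩⟩
        exact C.valid (show (gr N c t p fun j => t j ≤ t k).Adj i j from
          ⟨hij.1, hkmax i (by simp [hij.2.1]), hkmax j (by simp [hij.2.2.1]), hij.2.2.2⟩)
    obtain ⟨C1⟩ := hlo
    obtain ⟨C2⟩ := hup
    obtain ⟨C3, hC3⟩ := planar4 N hN (ι := {i : Fin n // t i = t m}) (fun i => c i.1)
      (fun i => p i.1) (fun i => hc i.1) (fun i j hij => by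
        have := h i.1 j.1 (fun h => hij (Subtype.ext h))
        rw [i.2, j.2, sub_self, abs_zero, add_zero] at this
        exact this)
    set f : Fin n → ℕ := fun i => if h1 : t i < t m then (C1 i).1 else
      if h2 : t i = t m then 2 + (C3 ⟨i, h2⟩).1 else 6 + (C2 i).1 with hf
    have hf8 : ∀ i, f i < 8 := by
      intro i
      simp only [hf]
      split_ifs with h1 h2
      · have := (C1 i).2; omega
      · have := (C3 ⟨i, h2⟩).2; omega
      · have := (C2 i).2; omega
    refine ⟨fun i => ⟨f i, hf8 i⟩, fun i j hij hle he => ?_⟩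
    have he' : f i = f j := congrArg Fin.val he
    simp only [hf] at he'
    have b1 : ∀ i, (C1 i).1 < 2 := fun i => (C1 i).2
    have b2 : ∀ i, (C2 i).1 < 2 := fun i => (C2 i).2
    have b3 : ∀ i, (C3 i).1 < 4 := fun i => (C3 i).2
    split_ifs at he' with h1 h2 h3 h4 h5 h6 h7 h8
    · exact C1.valid (show (gr N c t p fun i => t i < t m).Adj i j from ⟨hij, h1, h2, hle⟩)
        (Fin.ext he')
    · have := b1 i; omega
    · have := b1 i; omega
    · have := b1 j; omega
    · refine hC3 ⟨i, h4⟩ ⟨j, by assumption⟩ (fun h => hij (congrArg Subtype.val h)) ?_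
        (Fin.ext (by omega))
      have e1 : t i = t m := by assumption
      have e2 : t j = t m := by assumption
      rw [e1, e2, sub_self, abs_zero, add_zero] at hle
      exact hle
    · have := b3 ⟨i, by assumption⟩; omega
    · have := b1 j; omega
    · have := b3 ⟨j, by assumption⟩; omega
    · exact C2.valid (show (gr N c t p fun i => t m < t i).Adj i j from
        ⟨hij, lt_of_le_of_ne (not_lt.1 (by assumption)) (Ne.symm (by assumption)),
          lt_of_le_of_ne (not_lt.1 (by assumption)) (Ne.symm (by assumption)), hle⟩)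
        (Fin.ext (by omega))

end Pool.Agent.DCone
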