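import Pool.Agent.DCone.Core

/-!
# Two odd closed walks in the plane
-/

set_option autoImplicit false

namespace Pool.Agent.DCone

section cross

variable {E : Type} [AddCommGroup E] [Module ℝ E] (N : Seminorm ℝ E)

/-- two crossing segments -/
lemma crossN {p q r s : E} {α β γ δ : ℝ} (hα : 0 < α) (hβ : 0 < β) (hγ : 0 < γ) (hδ : 0 < δ)
    (hs : α + β = γ + δ) (h : α • p + β • q = γ • r + δ • s) :
    N (p - r) + N (q - s) ≤ N (p - q) + N (r - s) := by
  have e1 : (α + β) • (p - r) = β • (p - q) + δ • (s - r) := by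
    have : (α + β) • (p - r) - (β • (p - q) + δ • (s - r)) =
        (α • p + β • q - (γ • r + δ • s)) + ((γ + δ) • r - (α + β) • r) := by module
    rw [← sub_eq_zero, this, h, hs]; simp
  have e2 : (α + β) • (q - s) = γ • (r - s) + α • (q - p) := by
    have : (α + β) • (q - s) - (γ • (r - s) + α • (q - p)) =
        (α • p + β • q - (γ • r + δ • s)) + ((γ + δ) • s - (α + β) • s) := by module
    rw [← sub_eq_zero, this, h, hs]; simp
  have hS : 0 < α + β := by linarith
  have f1 : (α + β) * N (p - r) ≤ β * N (p - q) + δ * N (r - s) := by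
    calc (α + β) * N (p - r) = N ((α + β) • (p - r)) := by
          rw [map_smul_eq_mul, Real.norm_of_nonneg hS.le]
      _ ≤ N (β • (p - q)) + N (δ • (s - r)) := by rw [e1]; exact map_add_le_add N _ _
      _ = β * N (p - q) + δ * N (r - s) := by
          rw [map_smul_eq_mul, map_smul_eq_mul, Real.norm_of_nonneg hβ.le,
            Real.norm_of_nonneg hδ.le, map_sub_rev N s r]
  have f2 : (α + β) * N (q - s) ≤ γ * N (r - s) + α * N (p - q) := by
    calc (α + β) * N (q - s) = N ((α + β) • (q - s)) := by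
          rw [map_smul_eq_mul, Real.norm_of_nonneg hS.le]
      _ ≤ N (γ • (r - s)) + N (α • (q - p)) := by rw [e2]; exact map_add_le_add N _ _
      _ = γ * N (r - s) + α * N (p - q) := by
          rw [map_smul_eq_mul, map_smul_eq_mul, Real.norm_of_nonneg hγ.le,
            Real.norm_of_nonneg hα.le, map_sub_rev N q p]
  have f3 : (α + β) * (N (p - r) + N (q - s)) ≤ (α + β) * (N (p - q) + N (r - s)) := by
    have : δ * N (r - s) + γ * N (r - s) = (α + β) * N (r - s) := by rw [hs]; ring
    nlinarith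
  exact le_of_mul_le_mul_left f3 hS

end cross

variable {ι : Type}

/-- the orientation of three points -/
def dt (p : ι → ℝ × ℝ) (i k j : ι) : ℝ :=
  ((p k).1 - (p i).1) * ((p j).2 - (p i).2) - ((p k).2 - (p i).2) * ((p j).1 - (p i).1)

open Classical in
/-- `j` lies above the line `ik` and outside of the vertical strip of `i` and `k` -/
noncomputable def A (p : ι → ℝ × ℝ) (i k j : ι) : ZMod 2 :=
  if 0 < ((p k).1 - (p i).1) * dt p i k j ∧
    0 < ((p j).1 - (p i).1) * ((p j).1 - (p k).1) then 1 else 0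

open Classical in
/-- `i` lies below the line `jl` and outside of the vertical strip of `j` and `l` -/
noncomputable def B (p : ι → ℝ × ℝ) (j l i : ι) : ZMod 2 :=
  if ((p l).1 - (p j).1) * dt p j l i < 0 ∧
    0 < ((p i).1 - (p j).1) * ((p i).1 - (p l).1) then 1 else 0

lemma A_symm (p : ι → ℝ × ℝ) (i k j : ι) : A p i k j = A p k i j := by
  unfold A
  congr 1
  have e1 : ((p k).1 - (p i).1) * dt p i k j = ((p i).1 - (p k).1) * dt p k i j := by
    unfold dt; ring
  have e2 : ((p j).1 - (p i).1) * ((p j).1 - (p k).1) =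
    ((p j).1 - (p k).1) * ((p j).1 - (p i).1) := by ring
  rw [e1, e2]

lemma B_symm (p : ι → ℝ × ℝ) (j l i : ι) : B p j l i = B p l j i := by
  unfold B
  congr 1
  have e1 : ((p l).1 - (p j).1) * dt p j l i = ((p j).1 - (p l).1) * dt p l j i := by
    unfold dt; ring
  have e2 : ((p i).1 - (p j).1) * ((p i).1 - (p l).1) =
    ((p i).1 - (p l).1) * ((p i).1 - (p j).1) := by ring
  rw [e1, e2]

/-- general position -/
structure GP (p : ι → ℝ × ℝ) : Prop where
  x : ∀ i j, i ≠ j → (p i).1 ≠ (p j).1
  d : ∀ i j k, i ≠ j → i ≠ k → j ≠ k → dt p i j k ≠ 0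

variable (N : Seminorm ℝ (ℝ × ℝ)) {p : ι → ℝ × ℝ}

lemma pair_lt (hp : GP p) {i k j l : ι} (hik : i ≠ k) (hjl : j ≠ l) (hij : i ≠ j) (hil : i ≠ l)
    (hkj : k ≠ j) (hkl : k ≠ l) (h1 : (p i).1 < (p k).1) (h2 : (p j).1 < (p l).1)
    (hN1 : N (p i - p j) + N (p k - p l) < N (p i - p k) + N (p j - p l))
    (hN2 : N (p i - p l) + N (p k - p j) < N (p i - p k) + N (p j - p l)) :
    A p i k j + A p i k l + (B p j l i + B p j l k) = 1 := by
  classical
  set di := dt p j l k with hdi
  set dk := - dt p j l i with hdk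
  set dj := dt p i k l with hdj
  set dl := - dt p i k j with hdl
  have s : di + dk + dj + dl = 0 := by simp only [hdi, hdk, hdj, hdl, dt]; ring
  have t : di * (p i).1 + dk * (p k).1 + dj * (p j).1 + dl * (p l).1 = 0 := by
    simp only [hdi, hdk, hdj, hdl, dt]; ring
  have t2 : di * (p i).2 + dk * (p k).2 + dj * (p j).2 + dl * (p l).2 = 0 := by
    simp only [hdi, hdk, hdj, hdl, dt]; ring
  have tv : di • p i + dk • p k + dj • p j + dl • p l = 0 := by
    ext
    · simpa using t
    · simpa using t2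
  have n1 : di ≠ 0 := hp.d _ _ _ hjl hkj.symm hkl.symm
  have n2 : dk ≠ 0 := neg_ne_zero.2 (hp.d _ _ _ hjl hij.symm hil.symm)
  have n3 : dj ≠ 0 := hp.d _ _ _ hik hil hkl
  have n4 : dl ≠ 0 := neg_ne_zero.2 (hp.d _ _ _ hik hij hkj)
  have hex1 : 0 < di → dk < 0 → 0 < dj → dl < 0 → False := by
    intro a1 a2 a3 a4
    have := crossN N (p := p i) (q := p j) (r := p k) (s := p l) a1 a3 (neg_pos.2 a2)
      (neg_pos.2 a4) (by linarith) (by
        rw [← sub_eq_zero, ← tv]; module)
    linarith
  have hex2 : 0 < di → dk < 0 → dj < 0 → 0 < dl → False := by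
    intro a1 a2 a3 a4
    have := crossN N (p := p i) (q := p l) (r := p k) (s := p j) a1 a4 (neg_pos.2 a2)
      (neg_pos.2 a3) (by linarith) (by
        rw [← sub_eq_zero, ← tv]; module)
    rw [map_sub_rev N (p l) (p j)] at this
    linarith
  have hex3 : di < 0 → 0 < dk → 0 < dj → dl < 0 → False := by
    intro a1 a2 a3 a4
    have := crossN N (p := p k) (q := p j) (r := p i) (s := p l) a2 a3 (neg_pos.2 a1)
      (neg_pos.2 a4) (by linarith) (by
        rw [← sub_eq_zero, ← tv]; module)
    rw [map_sub_rev N (p k) (p i)] at this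
    linarith
  have hex4 : di < 0 → 0 < dk → dj < 0 → 0 < dl → False := by
    intro a1 a2 a3 a4
    have := crossN N (p := p k) (q := p l) (r := p i) (s := p j) a2 a4 (neg_pos.2 a1)
      (neg_pos.2 a3) (by linarith) (by
        rw [← sub_eq_zero, ← tv]; module)
    rw [map_sub_rev N (p k) (p i), map_sub_rev N (p l) (p j)] at this
    linarith
  have hc := core h1 h2 (hp.x _ _ hij) (hp.x _ _ hil) (hp.x _ _ hkj) (hp.x _ _ hkl) s t n1 n2 n3 n4
    hex1 hex2 hex3 hex4
  have c1 : 0 < ((p k).1 - (p i).1) * dt p i k j ↔ dl < 0 := by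
    rw [hdl, neg_lt_zero, mul_pos_iff_of_pos_left (sub_pos.2 h1)]
  have c2 : 0 < ((p k).1 - (p i).1) * dt p i k l ↔ 0 < dj := by
    rw [hdj, mul_pos_iff_of_pos_left (sub_pos.2 h1)]
  have c3 : ((p l).1 - (p j).1) * dt p j l i < 0 ↔ 0 < dk := by
    rw [hdk, neg_pos]
    constructor
    · intro h
      by_contra hh
      exact absurd (mul_nonneg (sub_pos.2 h2).le (not_lt.1 hh)) (not_le.2 h)
    · intro h; exact mul_neg_of_pos_of_neg (sub_pos.2 h2) h
  have c4 : ((p l).1 - (p j).1) * dt p j l k < 0 ↔ di < 0 := by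
    rw [hdi]
    constructor
    · intro h
      by_contra hh
      exact absurd (mul_nonneg (sub_pos.2 h2).le (not_lt.1 hh)) (not_le.2 h)
    · intro h; exact mul_neg_of_pos_of_neg (sub_pos.2 h2) h
  refine Eq.trans ?_ hc
  unfold A B
  simp only [c1, c2, c3, c4]

lemma pair (hp : GP p) {i k j l : ι} (hik : i ≠ k) (hjl : j ≠ l) (hij : i ≠ j) (hil : i ≠ l)
    (hkj : k ≠ j) (hkl : k ≠ l)
    (hN1 : N (p i - p j) + N (p k - p l) < N (p i - p k) + N (p j - p l))
    (hN2 : N (p i - p l) + N (p k - p j) < N (p i - p k) + N (p j - p l)) :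
    A p i k j + A p i k l + (B p j l i + B p j l k) = 1 := by
  rcases lt_or_gt_of_ne (hp.x _ _ hik) with h1 | h1 <;>
  rcases lt_or_gt_of_ne (hp.x _ _ hjl) with h2 | h2
  · exact pair_lt N hp hik hjl hij hil hkj hkl h1 h2 hN1 hN2
  · have := pair_lt N hp hik hjl.symm hil hij hkl hkj h1 h2
      (by rw [map_sub_rev N (p l) (p j)]; exact hN2) (by rw [map_sub_rev N (p l) (p j)]; exact hN1)
    rw [B_symm p j l i, B_symm p j l k, ← this]
    ring
  · have := pair_lt N hp hik.symm hjl hkj hkl hij hil h1 h2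
      (by rw [map_sub_rev N (p k) (p i)]; linarith) (by rw [map_sub_rev N (p k) (p i)]; linarith)
    rw [A_symm p i k j, A_symm p i k l, ← this]
    ring
  · have := pair_lt N hp hik.symm hjl.symm hkl hkj hil hij h1 h2
      (by rw [map_sub_rev N (p k) (p i), map_sub_rev N (p l) (p j)]; linarith)
      (by rw [map_sub_rev N (p k) (p i), map_sub_rev N (p l) (p j)]; linarith)
    rw [A_symm p i k j, A_symm p i k l, B_symm p j l i, B_symm p j l k, ← this]
    ring

/-! ### closed walks -/

lemma walk_sum {G : SimpleGraph ι} (f : ι → ZMod 2) {u v : ι} (w : G.Walk u v) :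
    (w.darts.map fun d => f d.fst + f d.snd).sum = f u + f v := by
  induction w with
  | nil => simp [CharTwo.add_self_eq_zero]
  | cons h w ih =>
    rw [SimpleGraph.Walk.darts_cons, List.map_cons, List.sum_cons, ih]
    rename_i a b c
    have : f b + f b = 0 := CharTwo.add_self_eq_zero _
    linear_combination this

lemma loop_sum {G : SimpleGraph ι} (f : ι → ZMod 2) {u : ι} (w : G.Walk u u) :
    (w.darts.map fun d => f d.fst + f d.snd).sum = 0 := by
  rw [walk_sum, CharTwo.add_self_eq_zero]

lemma sum_swap {α β : Type} (l : List α) (l' : List β) (f : α → β → ZMod 2) :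
    (l.map fun a => (l'.map fun b => f a b).sum).sum =
      (l'.map fun b => (l.map fun a => f a b).sum).sum := by
  induction l with
  | nil => simp
  | cons a l ih =>
    simp only [List.map_cons, List.sum_cons, ih]
    rw [← List.sum_map_add]

/-- the combinatorial heart: two graphs all of whose pairs of edges satisfy the exchange
inequalities are not both of odd girth -/
theorem key_gp (hp : GP p) (G₁ G₂ : SimpleGraph ι)
    (hd : ∀ i k j l, G₁.Adj i k → G₂.Adj j l → i ≠ j)
    (h : ∀ i k j l, G₁.Adj i k → G₂.Adj j l →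
      N (p i - p j) + N (p k - p l) < N (p i - p k) + N (p j - p l)) :
    G₁.Colorable 2 ∨ G₂.Colorable 2 := by
  by_contra hcon
  push Not at hcon
  obtain ⟨h1, h2⟩ := hcon
  rw [SimpleGraph.two_colorable_iff_forall_loop_even] at h1 h2
  push Not at h1 h2
  obtain ⟨u, w, hw⟩ := h1
  obtain ⟨u', w', hw'⟩ := h2
  have key : (w.darts.map fun d => (w'.darts.map fun d' =>
      ((A p d.fst d.snd d'.fst + A p d.fst d.snd d'.snd) +
        (B p d'.fst d'.snd d.fst + B p d'.fst d'.snd d.snd))).sum).sum =
      (w.darts.map fun _ => (w'.darts.map fun _ => (1 : ZMod 2)).sum).sum := by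
    refine congrArg List.sum (List.map_congr_left fun d _ => ?_)
    refine congrArg List.sum (List.map_congr_left fun d' _ => ?_)
    have a1 := d.adj
    have a2 := d'.adj
    refine pair N hp a1.ne a2.ne (hd _ _ _ _ a1 a2) (hd _ _ _ _ a1 a2.symm)
      (hd _ _ _ _ a1.symm a2) (hd _ _ _ _ a1.symm a2.symm) (h _ _ _ _ a1 a2) ?_
    have := h _ _ _ _ a1 a2.symm
    rw [map_sub_rev N (p d'.snd) (p d'.fst)] at this
    exact this
  have e1 : (w.darts.map fun d => (w'.darts.map fun d' =>
      ((A p d.fst d.snd d'.fst + A p d.fst d.snd d'.snd) +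
        (B p d'.fst d'.snd d.fst + B p d'.fst d'.snd d.snd))).sum).sum = 0 := by
    have a1 : ∀ d : G₁.Dart, (w'.darts.map fun d' => A p d.fst d.snd d'.fst +
        A p d.fst d.snd d'.snd).sum = 0 := fun d => loop_sum (fun j => A p d.fst d.snd j) w'
    have a2 : ∀ d' : G₂.Dart, (w.darts.map fun d => B p d'.fst d'.snd d.fst +
        B p d'.fst d'.snd d.snd).sum = 0 := fun d' => loop_sum (fun j => B p d'.fst d'.snd j) w
    have a3 : (w.darts.map fun d => (w'.darts.map fun d' =>
        (B p d'.fst d'.snd d.fst + B p d'.fst d'.snd d.snd)).sum).sum = 0 := by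
      rw [sum_swap]
      simp only [a2]
      simp
    calc _ = (w.darts.map fun d => (w'.darts.map fun d' => A p d.fst d.snd d'.fst +
        A p d.fst d.snd d'.snd).sum + (w'.darts.map fun d' =>
        (B p d'.fst d'.snd d.fst + B p d'.fst d'.snd d.snd)).sum).sum := by
          refine congrArg List.sum (List.map_congr_left fun d _ => ?_)
          rw [← List.sum_map_add]
      _ = 0 := by
          rw [List.sum_map_add, a3]
          simp only [a1]
          simp
  have e2 : (w.darts.map fun _ => (w'.darts.map fun _ => (1 : ZMod 2)).sum).sum = 1 := by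
    have b1 : (w.length : ZMod 2) = 1 := by
      rw [← Nat.not_even_iff_odd.1 hw |>.natCast_zmod_two]
    have b2 : (w'.length : ZMod 2) = 1 := by
      rw [← Nat.not_even_iff_odd.1 hw' |>.natCast_zmod_two]
    simp [b1, b2]
  rw [e1, e2] at key
  exact absurd key (by decide)

end Pool.Agent.DCone
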