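import Pool.Agent.DCone.Key

/-!
# General position by perturbation, and the dichotomy for levels
-/

set_option autoImplicit false

open Filter Topology

namespace Pool.Agent.DCone

lemma ev_pos {A B : ℝ} (h : 0 < A) : ∀ᶠ e : ℝ in 𝓝[>] 0, 0 < A + B * e := by
  have hc : Tendsto (fun e : ℝ => A + B * e) (𝓝[>] 0) (𝓝 A) := by
    have : Continuous fun e : ℝ => A + B * e := by fun_prop
    have h1 := this.tendsto 0
    simp only [mul_zero, add_zero] at h1
    exact h1.mono_left nhdsWithin_le_nhds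
  exact hc.eventually (lt_mem_nhds h)

lemma ev_ne1 {A B : ℝ} (h : A ≠ 0) : ∀ᶠ e : ℝ in 𝓝[>] 0, A + B * e ≠ 0 := by
  rcases lt_or_gt_of_ne h with h | h
  · filter_upwards [ev_pos (A := -A) (B := -B) (by linarith)] with e he h0
    linarith
  · filter_upwards [ev_pos (A := A) (B := B) h] with e he
    exact he.ne'

lemma ev_ne {A B C : ℝ} (h : C ≠ 0) : ∀ᶠ e : ℝ in 𝓝[>] 0, A + B * e + C * e ^ 2 ≠ 0 := by
  have h0 : ∀ᶠ e : ℝ in 𝓝[>] 0, 0 < e := self_mem_nhdsWithin
  by_cases hA : A = 0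
  · by_cases hB : B = 0
    · filter_upwards [h0] with e he
      rw [hA, hB]
      simp [h, he.ne']
    · filter_upwards [h0, ev_ne1 (A := B) (B := C) hB] with e he h1
      rw [hA]
      have : (0 : ℝ) + B * e + C * e ^ 2 = e * (B + C * e) := by ring
      rw [this]
      exact mul_ne_zero he.ne' h1
  · have hc : Tendsto (fun e : ℝ => A + B * e + C * e ^ 2) (𝓝[>] 0) (𝓝 A) := by
      have : Continuous fun e : ℝ => A + B * e + C * e ^ 2 := by fun_prop
      have h1 := this.tendsto 0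
      simp only [mul_zero, add_zero, ne_eq, OfNat.ofNat_ne_zero, not_false_eq_true, zero_pow] at h1
      exact h1.mono_left nhdsWithin_le_nhds
    exact hc.eventually_ne hA

variable {ι : Type}

/-- the dichotomy without general position -/
theorem key [Finite ι] (N : Seminorm ℝ (ℝ × ℝ)) (p : ι → ℝ × ℝ) (G₁ G₂ : SimpleGraph ι)
    (hd : ∀ i k j l, G₁.Adj i k → G₂.Adj j l → i ≠ j)
    (h : ∀ i k j l, G₁.Adj i k → G₂.Adj j l →
      N (p i - p j) + N (p k - p l) < N (p i - p k) + N (p j - p l)) :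
    G₁.Colorable 2 ∨ G₂.Colorable 2 := by
  obtain ⟨f, hf⟩ := exists_injective_nat ι
  set v : ι → ℝ × ℝ := fun i => ((f i : ℝ), (f i : ℝ) ^ 2) with hv
  have hfi : ∀ i j, i ≠ j → (f i : ℝ) - f j ≠ 0 := fun i j hij h0 =>
    hij (hf (by exact_mod_cast sub_eq_zero.1 h0))
  -- x-coordinates
  have ev1 : ∀ i j, ∀ᶠ e : ℝ in 𝓝[>] 0, i ≠ j → (p i + e • v i).1 ≠ (p j + e • v j).1 := by
    intro i j
    by_cases hij : i = j
    · exact Eventually.of_forall fun e h' => absurd hij h'
    · filter_upwards [self_mem_nhdsWithin,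
        (ev_ne (A := ((p i).1 - (p j).1) ^ 2) (B := 2 * ((p i).1 - (p j).1) * ((f i : ℝ) - f j))
          (C := ((f i : ℝ) - f j) ^ 2) (pow_ne_zero 2 (hfi i j hij)))] with e he h1 _ h2
      apply h1
      have h3 : ((p i).1 - (p j).1) + e * ((f i : ℝ) - f j) = 0 := by
        have : (p i + e • v i).1 - (p j + e • v j).1 = 0 := sub_eq_zero.2 h2
        simp only [hv, Prod.fst_add, Prod.smul_fst, smul_eq_mul] at this
        linarith
      have : ((p i).1 - (p j).1) ^ 2 + 2 * ((p i).1 - (p j).1) * ((f i : ℝ) - f j) * e +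
        ((f i : ℝ) - f j) ^ 2 * e ^ 2 = (((p i).1 - (p j).1) + e * ((f i : ℝ) - f j)) ^ 2 := by ring
      rw [this, h3]; simp
  have ev2 : ∀ i j k, ∀ᶠ e : ℝ in 𝓝[>] 0, i ≠ j → i ≠ k → j ≠ k →
      dt (fun i => p i + e • v i) i j k ≠ 0 := by
    intro i j k
    by_cases h3 : i ≠ j ∧ i ≠ k ∧ j ≠ k
    · obtain ⟨hij, hik, hjk⟩ := h3
      have hC : ((f j : ℝ) - f i) * ((f k : ℝ) - f i) * ((f k : ℝ) - f j) ≠ 0 :=
        mul_ne_zero (mul_ne_zero (hfi _ _ hij.symm) (hfi _ _ hik.symm)) (hfi _ _ hjk.symm)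
      filter_upwards [ev_ne (A := dt p i j k)
        (B := ((p j).1 - (p i).1) * ((f k : ℝ) ^ 2 - (f i : ℝ) ^ 2) +
          ((f j : ℝ) - f i) * ((p k).2 - (p i).2) -
          ((p j).2 - (p i).2) * ((f k : ℝ) - f i) -
          ((f j : ℝ) ^ 2 - (f i : ℝ) ^ 2) * ((p k).1 - (p i).1)) hC] with e he _ _ _ h0
      apply he
      rw [← h0]
      simp only [dt, hv, Prod.fst_add, Prod.smul_fst, Prod.snd_add, Prod.smul_snd, smul_eq_mul]
      ring
    · exact Eventually.of_forall fun e a b c => absurd ⟨a, b, c⟩ h3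
  have ev3 : ∀ q : ι × ι × ι × ι, ∀ᶠ e : ℝ in 𝓝[>] 0,
      G₁.Adj q.1 q.2.1 → G₂.Adj q.2.2.1 q.2.2.2 →
      N ((p q.1 + e • v q.1) - (p q.2.2.1 + e • v q.2.2.1)) +
        N ((p q.2.1 + e • v q.2.1) - (p q.2.2.2 + e • v q.2.2.2)) <
      N ((p q.1 + e • v q.1) - (p q.2.1 + e • v q.2.1)) +
        N ((p q.2.2.1 + e • v q.2.2.1) - (p q.2.2.2 + e • v q.2.2.2)) := by
    rintro ⟨i, k, j, l⟩
    simp only
    by_cases h3 : G₁.Adj i k ∧ G₂.Adj j l
    · obtain ⟨h1, h2⟩ := h3
      have hh := h i k j l h1 h2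
      have bound : ∀ (a b : ι) (e : ℝ), 0 < e →
          N ((p a + e • v a) - (p b + e • v b)) ≤ N (p a - p b) + e * N (v a - v b) ∧
          N (p a - p b) - e * N (v a - v b) ≤ N ((p a + e • v a) - (p b + e • v b)) := by
        intro a b e he
        have q1 : (p a + e • v a) - (p b + e • v b) = (p a - p b) + e • (v a - v b) := by module
        have q2 : p a - p b = ((p a + e • v a) - (p b + e • v b)) - e • (v a - v b) := by module
        constructor
        · rw [q1]
          refine (map_add_le_add N _ _).trans ?_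
          rw [map_smul_eq_mul, Real.norm_of_nonneg he.le]
        · have : N (p a - p b) ≤ N ((p a + e • v a) - (p b + e • v b)) + e * N (v a - v b) := by
            have q3 := map_sub_le_add N ((p a + e • v a) - (p b + e • v b)) (e • (v a - v b))
            rw [← q2, map_smul_eq_mul, Real.norm_of_nonneg he.le] at q3
            exact q3
          linarith
      filter_upwards [self_mem_nhdsWithin,
        ev_pos (A := N (p i - p k) + N (p j - p l) - (N (p i - p j) + N (p k - p l)))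
          (B := - (N (v i - v j) + N (v k - v l) + N (v i - v k) + N (v j - v l)))
          (by linarith)] with e he h4 _ _
      have he' : 0 < e := he
      have b1 := (bound i j e he').1
      have b2 := (bound k l e he').1
      have b3 := (bound i k e he').2
      have b4 := (bound j l e he').2
      nlinarith
    · exact Eventually.of_forall fun e a b => absurd ⟨a, b⟩ h3
  obtain ⟨e, he1, he2, he3⟩ := ((eventually_all.2 fun i => eventually_all.2 fun j => ev1 i j).and
    ((eventually_all.2 fun i => eventually_all.2 fun j => eventually_all.2 fun k => ev2 i j k).and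
      (eventually_all.2 ev3))).exists
  exact key_gp N (p := fun i => p i + e • v i) ⟨he1, he2⟩ G₁ G₂ hd
    fun i k j l a b => he3 (i, k, j, l) a b

/-- the graph of the touching pairs inside a subset of the family -/
def gr {n : ℕ} (N : Seminorm ℝ (ℝ × ℝ)) (c t : Fin n → ℝ) (p : Fin n → ℝ × ℝ)
    (S : Fin n → Prop) : SimpleGraph (Fin n) where
  Adj i j := i ≠ j ∧ S i ∧ S j ∧ c i + c j ≤ N (p i - p j) + |t i - t j|
  symm := ⟨fun i j h => ⟨h.1.symm, h.2.2.1, h.2.1, by
    rw [map_sub_rev N, abs_sub_comm, add_comm (c j)]; exact h.2.2.2⟩⟩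
  loopless := ⟨fun i h => h.1 rfl⟩

/-- **Dichotomy.** -/
theorem level {n : ℕ} (N : Seminorm ℝ (ℝ × ℝ)) (c t : Fin n → ℝ) (p : Fin n → ℝ × ℝ)
    (h : ∀ i j, i ≠ j → N (p i - p j) + |t i - t j| ≤ c i + c j) (τ : ℝ) :
    (gr N c t p fun i => t i ≤ τ).Colorable 2 ∨ (gr N c t p fun i => τ < t i).Colorable 2 := by
  refine key N p _ _ ?_ ?_
  · rintro i k j l ⟨_, h1, _, _⟩ ⟨_, h2, _, _⟩ rfl
    linarith
  · rintro i k j l ⟨_, h1, h2, h3⟩ ⟨_, h4, h5, h6⟩
    have e1 := h i j (by rintro rfl; linarith)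
    have e2 := h k l (by rintro rfl; linarith)
    have a1 : |t i - t j| = t j - t i := by rw [abs_of_neg (by linarith)]; ring
    have a2 : |t k - t l| = t l - t k := by rw [abs_of_neg (by linarith)]; ring
    rw [a1] at e1
    rw [a2] at e2
    rcases abs_cases (t i - t k) with ⟨b1, _⟩ | ⟨b1, _⟩ <;>
    rcases abs_cases (t j - t l) with ⟨b2, _⟩ | ⟨b2, _⟩ <;>
    rw [b1] at h3 <;> rw [b2] at h6 <;> linarith

end Pool.Agent.DCone
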