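import Pool.Agent.DCone.Ext

/-!
# Three colours for planar families with a smaller virtual member
-/

set_option autoImplicit false

open Filter Topology

namespace Pool.Agent.DCone

section

variable {ι : Type} {N : Seminorm ℝ (ℝ × ℝ)}

/-- the closed sector between `a` and `b` -/
def Sec (a b u : ℝ × ℝ) : Prop := 0 ≤ dd a u ∧ 0 ≤ dd u b

/-- a set `S` of functionals on which the form `C + L · z` is not positive, while it is not negative
at the extreme points `a`, `b`: if `S` meets the open sector `(a, b)`, then it is contained in the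
closed one. -/
lemma open_sector {a b z : ℝ × ℝ} {C : ℝ} (hC : 0 < C) (ha : Ext N a) (hb : Ext N b)
    (φa : 0 ≤ C + L a z) (φb : 0 ≤ C + L b z) (hab : 0 < dd a b)
    {u v : ℝ × ℝ} (hu : u ∈ Po N) (hv : v ∈ Po N) (φu : C + L u z ≤ 0) (φv : C + L v z ≤ 0)
    (h1 : 0 < dd a u) (h2 : 0 < dd u b) : Sec a b v := by
  by_contra hcon
  have hcon' : dd a v < 0 ∨ dd v b < 0 := by
    unfold Sec at hcon
    by_contra h
    push Not at h
    exact hcon ⟨h.1, h.2⟩
  have hpl : dd a b * dd u v = dd a v * dd u b - dd a u * dd v b := by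
    simp only [dd]; ring
  rcases lt_trichotomy (dd u v) 0 with h0 | h0 | h0
  · -- `a` lies between `u` and `v`
    have h3 : dd a v < 0 := by
      by_contra h
      push Not at h
      have h4 : dd v b < 0 := hcon'.resolve_left (not_lt.2 h)
      have h5 := mul_neg_of_pos_of_neg hab h0
      have h6 := mul_nonneg h h2.le
      have h7 := mul_neg_of_pos_of_neg h1 h4
      linarith
    have e := cramer (w := a) h0.ne
    have α0 : 0 ≤ dd a v / dd u v := (div_pos_of_neg_of_neg h3 h0).le
    have e1 : dd u a = - dd a u := dd_swap _ _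
    have β0 : 0 ≤ dd u a / dd u v := (div_pos_of_neg_of_neg (by rw [e1]; linarith) h0).le
    rcases ha.cross hC hu hv φa φu φv α0 β0 e with h | h
    · rw [← h, dd_self] at h1; exact lt_irrefl _ h1
    · rw [← h, dd_self] at h3; exact lt_irrefl _ h3
  · -- parallel
    rw [h0, mul_zero] at hpl
    have h3 : dd a v < 0 ∧ dd v b < 0 := by
      rcases hcon' with h | h
      · refine ⟨h, ?_⟩
        have := mul_neg_of_neg_of_pos h h2
        by_contra h4
        push Not at h4
        have := mul_nonneg h1.le h4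
        linarith
      · refine ⟨?_, h⟩
        have := mul_neg_of_pos_of_neg h1 h
        by_contra h4
        push Not at h4
        have := mul_nonneg h4 h2.le
        linarith
    have e : dd u b * L v z = dd v b * L u z := by
      have : dd u b * L v z - dd v b * L u z = dd u v * L b z := by
        simp only [dd, L]; ring
      rw [h0, zero_mul] at this
      linarith
    have h4 : L v z < 0 := by linarith
    have h5 : L u z < 0 := by linarith
    have h6 := mul_neg_of_pos_of_neg h2 h4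
    have h7 := mul_pos_of_neg_of_neg h3.2 h5
    linarith
  · -- `b` lies between `u` and `v`
    have h3 : dd v b < 0 := by
      by_contra h
      push Not at h
      have h4 : dd a v < 0 := hcon'.resolve_right (not_lt.2 h)
      have h5 := mul_pos hab h0
      have h6 := mul_neg_of_neg_of_pos h4 h2
      have h7 := mul_nonneg h1.le h
      linarith
    have e := cramer (w := b) h0.ne'
    have e1 : dd b v = - dd v b := dd_swap _ _
    have α0 : 0 ≤ dd b v / dd u v := div_nonneg (by rw [e1]; linarith) h0.le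
    have β0 : 0 ≤ dd u b / dd u v := div_nonneg h2.le h0.le
    rcases hb.cross hC hu hv φb φu φv α0 β0 e with h | h
    · rw [← h, dd_self] at h2; exact lt_irrefl _ h2
    · rw [← h, dd_self] at h3; exact lt_irrefl _ h3

/-- a vector parallel to `a` -/
lemma ray {a b c z : ℝ × ℝ} {C : ℝ} (hC : 0 < C) (ha : Ext N a) (φa : 0 ≤ C + L a z)
    (hab : 0 < dd a b) (hca : 0 < dd c a)
    {u : ℝ × ℝ} (hu : u ∈ Po N) (φu : C + L u z ≤ 0) (h : dd a u = 0) :
    u = a ∨ (0 < dd b u ∧ 0 < dd u c) := by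
  obtain ⟨κ, hκ⟩ := par_smul ha.1 h
  rcases lt_trichotomy κ 0 with h0 | h0 | h0
  · right
    have e1 : dd b u = - κ * dd a b := by rw [hκ]; simp only [dd, Prod.smul_fst, Prod.smul_snd, smul_eq_mul]; ring
    have e2 : dd u c = - κ * dd c a := by rw [hκ]; simp only [dd, Prod.smul_fst, Prod.smul_snd, smul_eq_mul]; ring
    rw [e1, e2]
    exact ⟨mul_pos (by linarith) hab, mul_pos (by linarith) hca⟩
  · rw [h0, zero_smul] at hκ
    rw [hκ] at φu
    simp only [L, Prod.fst_zero, Prod.snd_zero, zero_mul, add_zero] at φu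
    linarith
  · left
    rcases ha.cross hC hu hu φa φu φu (inv_pos.2 h0).le le_rfl (by
      rw [zero_smul, add_zero, hκ, smul_smul, inv_mul_cancel₀ h0.ne', one_smul]) with h1 | h1
    · exact h1.symm
    · exact h1.symm

/-- the set is contained in one of three sectors -/
lemma sectors {a b c z : ℝ × ℝ} {C : ℝ} (hC : 0 < C) (ha : Ext N a) (hb : Ext N b) (hc : Ext N c)
    (φa : 0 ≤ C + L a z) (φb : 0 ≤ C + L b z) (φc : 0 ≤ C + L c z) (hab : 0 < dd a b)
    (hbc : 0 < dd b c) (hca : 0 < dd c a) (S : ℝ × ℝ → Prop) (hS : ∀ u, S u → u ∈ Po N)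
    (φS : ∀ u, S u → C + L u z ≤ 0) :
    (∀ u, S u → Sec a b u) ∨ (∀ u, S u → Sec b c u) ∨ ∀ u, S u → Sec c a u := by
  by_cases h1 : ∃ u, S u ∧ 0 < dd a u ∧ 0 < dd u b
  · obtain ⟨u, hu, u1, u2⟩ := h1
    exact Or.inl fun v hv => open_sector hC ha hb φa φb hab (hS u hu) (hS v hv) (φS u hu)
      (φS v hv) u1 u2
  by_cases h2 : ∃ u, S u ∧ 0 < dd b u ∧ 0 < dd u c
  · obtain ⟨u, hu, u1, u2⟩ := h2
    exact Or.inr (Or.inl fun v hv => open_sector hC hb hc φb φc hbc (hS u hu) (hS v hv) (φS u hu)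
      (φS v hv) u1 u2)
  by_cases h3 : ∃ u, S u ∧ 0 < dd c u ∧ 0 < dd u a
  · obtain ⟨u, hu, u1, u2⟩ := h3
    exact Or.inr (Or.inr fun v hv => open_sector hC hc ha φc φa hca (hS u hu) (hS v hv) (φS u hu)
      (φS v hv) u1 u2)
  -- everything lies in `{a, b, c}`
  have hsum : ∀ u, dd b c * dd a u + dd c a * dd b u + dd a b * dd c u = 0 := by
    intro u; simp only [dd]; ring
  have hloc : ∀ u, S u → u = a ∨ u = b ∨ u = c := by
    intro u hu
    have n1 : ¬ (0 < dd a u ∧ 0 < dd u b) := fun h => h1 ⟨u, hu, h⟩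
    have n2 : ¬ (0 < dd b u ∧ 0 < dd u c) := fun h => h2 ⟨u, hu, h⟩
    have n3 : ¬ (0 < dd c u ∧ 0 < dd u a) := fun h => h3 ⟨u, hu, h⟩
    rw [dd_swap u b] at n1
    rw [dd_swap u c] at n2
    rw [dd_swap u a] at n3
    have hs := hsum u
    rcases lt_trichotomy (dd a u) 0 with s1 | s1 | s1
    · rcases lt_trichotomy (dd b u) 0 with s2 | s2 | s2
      · rcases lt_trichotomy (dd c u) 0 with s3 | s3 | s3
        · have := mul_neg_of_pos_of_neg hbc s1
          have := mul_neg_of_pos_of_neg hca s2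
          have := mul_neg_of_pos_of_neg hab s3
          linarith
        · have := mul_neg_of_pos_of_neg hbc s1
          have := mul_neg_of_pos_of_neg hca s2
          rw [s3, mul_zero] at hs
          linarith
        · exact (n3 ⟨s3, by linarith⟩).elim
      · rcases ray hC hb φb hbc hab (hS u hu) (φS u hu) s2 with h | h
        · exact Or.inr (Or.inl h)
        · rw [dd_swap u a] at h; exact (n3 h).elim
      · rcases lt_trichotomy (dd c u) 0 with s3 | s3 | s3
        · exact (n2 ⟨s2, by linarith⟩).elim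
        · rcases ray hC hc φc hca hbc (hS u hu) (φS u hu) s3 with h | h
          · exact Or.inr (Or.inr h)
          · rw [dd_swap u b] at h; exact (n1 h).elim
        · exact (n3 ⟨s3, by linarith⟩).elim
    · rcases ray hC ha φa hab hca (hS u hu) (φS u hu) s1 with h | h
      · exact Or.inl h
      · rw [dd_swap u c] at h; exact (n2 h).elim
    · rcases lt_trichotomy (dd b u) 0 with s2 | s2 | s2
      · exact (n1 ⟨s1, by linarith⟩).elim
      · rcases ray hC hb φb hbc hab (hS u hu) (φS u hu) s2 with h | h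
        · exact Or.inr (Or.inl h)
        · rw [dd_swap u a] at h; exact (n3 h).elim
      · rcases lt_trichotomy (dd c u) 0 with s3 | s3 | s3
        · exact (n2 ⟨s2, by linarith⟩).elim
        · rcases ray hC hc φc hca hbc (hS u hu) (φS u hu) s3 with h | h
          · exact Or.inr (Or.inr h)
          · rw [dd_swap u b] at h; exact (n1 h).elim
        · have := mul_pos hbc s1
          have := mul_pos hca s2
          have := mul_pos hab s3
          linarith
  by_cases m3 : S c
  · by_cases m1 : S a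
    · by_cases m2 : S b
      · exfalso
        have e : dd b c * L a z + dd c a * L b z + dd a b * L c z = 0 := by
          simp only [dd, L]; ring
        have f1 := mul_nonpos_of_nonneg_of_nonpos hbc.le (φS a m1)
        have f2 := mul_nonpos_of_nonneg_of_nonpos hca.le (φS b m2)
        have f3 := mul_nonpos_of_nonneg_of_nonpos hab.le (φS c m3)
        have f4 : 0 < (dd b c + dd c a + dd a b) * C := by positivity
        nlinarith
      · refine Or.inr (Or.inr fun u hu => ?_)
        rcases hloc u hu with h | h | h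
        · rw [h]; exact ⟨hca.le, by rw [dd_self]⟩
        · rw [h] at hu; exact (m2 hu).elim
        · rw [h]; exact ⟨by rw [dd_self], hca.le⟩
    · refine Or.inr (Or.inl fun u hu => ?_)
      rcases hloc u hu with h | h | h
      · rw [h] at hu; exact (m1 hu).elim
      · rw [h]; exact ⟨by rw [dd_self], hbc.le⟩
      · rw [h]; exact ⟨hbc.le, by rw [dd_self]⟩
  · refine Or.inl fun u hu => ?_
    rcases hloc u hu with h | h | h
    · rw [h]; exact ⟨by rw [dd_self], hab.le⟩
    · rw [h]; exact ⟨hab.le, by rw [dd_self]⟩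
    · rw [h] at hu; exact (m3 hu).elim

lemma Sec.not_neg {a b u : ℝ × ℝ} (hab : 0 < dd a b) (hu : u ≠ 0) (h1 : Sec a b u)
    (h2 : Sec a b (-u)) : False := by
  obtain ⟨a1, a2⟩ := h1
  obtain ⟨b1, b2⟩ := h2
  rw [dd_neg_right] at b1
  rw [dd_neg_left] at b2
  have e1 : dd a u = 0 := by linarith
  have e2 : dd u b = 0 := by linarith
  have e := cramer (w := u) hab.ne'
  rw [e1, e2, zero_div, zero_smul, zero_smul, add_zero] at e
  exact hu e

/-- **Three colours**, given a triple of extreme points. -/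
theorem three {c : ι → ℝ} {x : ι → ℝ × ℝ} (hc : ∀ i, 0 < c i) (Φ : ℝ × ℝ → Prop)
    (hΦ : ∀ u, Φ u → u ∈ Po N) (hΦn : ∀ u, Φ u → Φ (-u))
    (ht : ∀ i k, i ≠ k → c i + c k ≤ N (x i - x k) → ∃ u, Φ u ∧ L u (x k - x i) = c i + c k)
    (p : ℝ × ℝ) (ρ : ℝ) (hρ : ∀ m, ρ < c m) (hg : ∀ u, Φ u → ∀ m, L u (x m) - c m ≤ L u p + ρ)
    {w₁ w₂ w₃ : ℝ × ℝ} (h1 : Ext N w₁) (h2 : Ext N w₂) (h3 : Ext N w₃) (h12 : 0 < dd w₁ w₂)
    (h23 : 0 < dd w₂ w₃) (h31 : 0 < dd w₃ w₁) (φ1 : ∀ i, 0 ≤ c i - ρ + L w₁ (x i - p))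
    (φ2 : ∀ i, 0 ≤ c i - ρ + L w₂ (x i - p)) (φ3 : ∀ i, 0 ≤ c i - ρ + L w₃ (x i - p)) :
    ∃ col : ι → Fin 3, ∀ i j, i ≠ j → c i + c j ≤ N (x i - x j) → col i ≠ col j := by
  classical
  set S : ι → ℝ × ℝ → Prop := fun i u => Φ u ∧ ∃ k, k ≠ i ∧ L u (x k - x i) = c i + c k with hS
  have φS : ∀ i u, S i u → c i - ρ + L u (x i - p) ≤ 0 := by
    rintro i u ⟨hu, k, hk, he⟩
    have := hg u hu k
    rw [L_sub] at he ⊢
    linarith
  have hs := fun i => sectors (N := N) (by have := hρ i; linarith : 0 < c i - ρ) h1 h2 h3 (φ1 i)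
    (φ2 i) (φ3 i) h12 h23 h31 (S i) (fun u hu => hΦ u hu.1) (φS i)
  refine ⟨fun i => if ∀ u, S i u → Sec w₁ w₂ u then 0 else if ∀ u, S i u → Sec w₂ w₃ u then 1
    else 2, fun i k hik hle he => ?_⟩
  beta_reduce at he
  obtain ⟨u, hu1, hu2⟩ := ht i k hik hle
  have hu0 : u ≠ 0 := by
    rintro rfl
    simp only [L, Prod.fst_zero, Prod.snd_zero, zero_mul, add_zero] at hu2
    have := hc i
    have := hc k
    linarith
  have s1 : S i u := ⟨hu1, k, hik.symm, hu2⟩
  have s2 : S k (-u) := ⟨hΦn u hu1, i, hik, by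
    rw [L_neg, L_sub]; rw [L_sub] at hu2; linarith⟩
  by_cases a1 : ∀ u, S i u → Sec w₁ w₂ u <;> by_cases b1 : ∀ u, S k u → Sec w₁ w₂ u
  · exact (a1 u s1).not_neg h12 hu0 (b1 _ s2)
  · rw [if_pos a1, if_neg b1] at he
    split_ifs at he <;> simp at he
  · rw [if_neg a1, if_pos b1] at he
    split_ifs at he <;> simp at he
  · rw [if_neg a1, if_neg b1] at he
    by_cases a2 : ∀ u, S i u → Sec w₂ w₃ u <;> by_cases b2 : ∀ u, S k u → Sec w₂ w₃ u
    · exact (a2 u s1).not_neg h23 hu0 (b2 _ s2)
    · rw [if_pos a2, if_neg b2] at he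
      simp at he
    · rw [if_neg a2, if_pos b2] at he
      simp at he
    · have a3 := ((hs i).resolve_left a1).resolve_left a2
      have b3 := ((hs k).resolve_left b1).resolve_left b2
      exact (a3 u s1).not_neg h31 hu0 (b3 _ s2)

/-- minimiser of a maximum of finitely many affine functions -/
theorem lp {κ : Type} [Fintype κ] (u : κ → ℝ × ℝ) (g : κ → ℝ) {a b : ℝ × ℝ}
    (hab : 0 < dd a b) (h1 : ∃ k, u k = a) (h2 : ∃ k, u k = -a) (h3 : ∃ k, u k = b)
    (h4 : ∃ k, u k = -b) :
    ∃ p ρ, (∀ k, g k ≤ L (u k) p + ρ) ∧ (∀ p' ρ', (∀ k, g k ≤ L (u k) p' + ρ') → ρ ≤ ρ') ∧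
      (0 : ℝ × ℝ) ∈ convexHull ℝ {w | ∃ k, u k = w ∧ g k = L w p + ρ} := by
  classical
  have hne : (Finset.univ : Finset κ).Nonempty := by
    obtain ⟨k, _⟩ := h1
    exact ⟨k, Finset.mem_univ k⟩
  set f : ℝ × ℝ → ℝ := fun p => Finset.univ.sup' hne fun k => g k - L (u k) p with hf
  have hLc : ∀ w : ℝ × ℝ, Continuous fun p => L w p := by
    intro w; unfold L; fun_prop
  have hfc : Continuous f := by
    rw [hf, continuous_iff_continuousAt]
    intro p
    exact ContinuousAt.finset_sup'_apply hne fun k _ =>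
      (continuous_const.sub (hLc (u k))).continuousAt
  have hle : ∀ p k, g k - L (u k) p ≤ f p := fun p k =>
    Finset.le_sup' (fun k => g k - L (u k) p) (Finset.mem_univ k)
  have hlt : ∀ p r, (∀ k, g k - L (u k) p < r) → f p < r := fun p r h =>
    (Finset.sup'_lt_iff hne).2 fun k _ => h k
  have hle' : ∀ p r, (∀ k, g k - L (u k) p ≤ r) → f p ≤ r := fun p r h =>
    (Finset.sup'_le_iff hne _).2 fun k _ => h k
  -- minimiser
  obtain ⟨p, hp⟩ : ∃ p, ∀ p', f p ≤ f p' := by
    obtain ⟨k1, hk1⟩ := h1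
    obtain ⟨k2, hk2⟩ := h2
    obtain ⟨k3, hk3⟩ := h3
    obtain ⟨k4, hk4⟩ := h4
    set R := f 0 with hR
    set A := |g k1| + |g k2| + |R| with hA
    set B := |g k3| + |g k4| + |R| with hB
    set K : Set (ℝ × ℝ) := {p | f p ≤ R} with hK
    have hKc : IsClosed K := isClosed_le hfc continuous_const
    have hKcpt : IsCompact K := by
      set M1 := (A * |b.2| + B * |a.2|) / dd a b with hM1
      set M2 := (A * |b.1| + B * |a.1|) / dd a b with hM2
      refine (isCompact_Icc (a := ((-M1, -M2) : ℝ × ℝ)) (b := (M1, M2))).of_isClosed_subset hKc ?_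
      intro p hpK
      have hpK' : f p ≤ R := hpK
      have a1 : |L a p| ≤ A := by
        have e1 := hle p k1
        have e2 := hle p k2
        rw [hk1] at e1
        rw [hk2, L_neg] at e2
        have := neg_abs_le (g k1)
        have := neg_abs_le (g k2)
        have := le_abs_self R
        have := abs_nonneg (g k1)
        have := abs_nonneg (g k2)
        rw [abs_le, hA]
        constructor <;> linarith
      have b1 : |L b p| ≤ B := by
        have e1 := hle p k3
        have e2 := hle p k4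
        rw [hk3] at e1
        rw [hk4, L_neg] at e2
        have := neg_abs_le (g k3)
        have := neg_abs_le (g k4)
        have := le_abs_self R
        have := abs_nonneg (g k3)
        have := abs_nonneg (g k4)
        rw [abs_le, hB]
        constructor <;> linarith
      have q1 : |p.1| ≤ M1 := by
        rw [hM1, le_div_iff₀ hab]
        have e : p.1 * dd a b = L a p * b.2 - L b p * a.2 := by simp only [L, dd]; ring
        calc |p.1| * dd a b = |p.1 * dd a b| := by rw [abs_mul, abs_of_pos hab]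
          _ = |L a p * b.2 - L b p * a.2| := by rw [e]
          _ ≤ |L a p * b.2| + |L b p * a.2| := abs_sub _ _
          _ = |L a p| * |b.2| + |L b p| * |a.2| := by rw [abs_mul, abs_mul]
          _ ≤ A * |b.2| + B * |a.2| := by gcongr
      have q2 : |p.2| ≤ M2 := by
        rw [hM2, le_div_iff₀ hab]
        have e : p.2 * dd a b = L b p * a.1 - L a p * b.1 := by simp only [L, dd]; ring
        calc |p.2| * dd a b = |p.2 * dd a b| := by rw [abs_mul, abs_of_pos hab]
          _ = |L b p * a.1 - L a p * b.1| := by rw [e]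
          _ ≤ |L b p * a.1| + |L a p * b.1| := abs_sub _ _
          _ = |L b p| * |a.1| + |L a p| * |b.1| := by rw [abs_mul, abs_mul]
          _ ≤ B * |a.1| + A * |b.1| := by gcongr
          _ = A * |b.1| + B * |a.1| := by ring
      exact ⟨⟨(abs_le.1 q1).1, (abs_le.1 q2).1⟩, ⟨(abs_le.1 q1).2, (abs_le.1 q2).2⟩⟩
    obtain ⟨p, hpK, hpm⟩ := hKcpt.exists_isMinOn ⟨0, le_refl R⟩ hfc.continuousOn
    refine ⟨p, fun p' => ?_⟩
    by_cases hp' : f p' ≤ R
    · exact hpm hp'
    · push Not at hp'
      have : f p ≤ R := hpK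
      linarith
  refine ⟨p, f p, fun k => by have := hle p k; linarith, fun p' ρ' h => ?_, ?_⟩
  · exact (hp p').trans (hle' p' ρ' fun k => by have := h k; linarith)
  · set W : Set (ℝ × ℝ) := {w | ∃ k, u k = w ∧ g k = L w p + f p} with hW
    have hWf : W.Finite := by
      refine (Set.finite_range u).subset ?_
      rintro w ⟨k, hk, _⟩
      exact ⟨k, hk⟩
    by_contra hcon
    obtain ⟨F, r, hr1, hr2⟩ := geometric_hahn_banach_point_closed (convex_convexHull ℝ W)
      (hWf.isClosed_convexHull ℝ) hcon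
    rw [map_zero] at hr1
    have hLF : ∀ w, L w (F (1, 0), F (0, 1)) = F w := by
      intro w
      have e : w = w.1 • ((1, 0) : ℝ × ℝ) + w.2 • ((0, 1) : ℝ × ℝ) := by ext <;> simp
      conv_rhs => rw [e]
      rw [map_add, map_smul, map_smul]
      simp only [L, smul_eq_mul]
    set v : ℝ × ℝ := (F (1, 0), F (0, 1)) with hv
    have hpos : ∀ w ∈ W, 0 < L w v := by
      intro w hw
      rw [hLF]
      exact hr1.trans (hr2 w (subset_convexHull ℝ W hw))
    have ev : ∀ k, ∀ᶠ ε : ℝ in 𝓝[>] 0, g k - L (u k) (p + ε • v) < f p := by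
      intro k
      have e : ∀ ε : ℝ, L (u k) (p + ε • v) = L (u k) p + ε * L (u k) v := by
        intro ε; simp only [L, Prod.fst_add, Prod.snd_add, Prod.smul_fst, Prod.smul_snd,
          smul_eq_mul]; ring
      rcases (hle p k).eq_or_lt with h0 | h0
      · have hk : u k ∈ W := ⟨k, rfl, by linarith⟩
        filter_upwards [self_mem_nhdsWithin] with ε hε
        have hε' : 0 < ε := hε
        rw [e]
        have := mul_pos hε' (hpos _ hk)
        linarith
      · filter_upwards [ev_pos (A := f p - (g k - L (u k) p)) (B := L (u k) v) (by linarith)]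
          with ε hε
        rw [e]
        linarith
    obtain ⟨ε, hε⟩ := (eventually_all.2 ev).exists
    exact absurd (hp (p + ε • v)) (not_le.2 (hlt _ _ hε))

/-- a set of extreme points with `0` in its hull -/
theorem triple_of_hull {W : Set (ℝ × ℝ)} (hW : ∀ w ∈ W, Ext N w)
    (h0 : (0 : ℝ × ℝ) ∈ convexHull ℝ W) :
    (∃ w, w ∈ W ∧ -w ∈ W) ∨
      ∃ a b c, a ∈ W ∧ b ∈ W ∧ c ∈ W ∧ 0 < dd a b ∧ 0 < dd b c ∧ 0 < dd c a := by
  obtain ⟨κ, hκ, z, w, hz, hind, hw, hs, h0⟩ := eq_pos_convex_span_of_mem_convexHull (𝕜 := ℝ) h0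
  have hcard : Fintype.card κ ≤ 3 := by
    refine hind.card_le_finrank_succ.trans ?_
    have := Submodule.finrank_le (vectorSpan ℝ (Set.range z))
    rw [Module.finrank_prod, Module.finrank_self] at this
    omega
  have hzW : ∀ i, z i ∈ W := fun i => hz ⟨i, rfl⟩
  obtain ⟨n, hn⟩ : ∃ n, n = Fintype.card κ := ⟨_, rfl⟩
  let e : Fin n ≃ κ := (Fintype.equivFinOfCardEq hn.symm).symm
  have hs' : ∑ i, w (e i) = 1 := by rw [e.sum_comp w]; exact hs
  have h0' : ∑ i, w (e i) • z (e i) = 0 := by rw [e.sum_comp fun i => w i • z i]; exact h0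
  rw [← hn] at hcard
  clear_value e
  clear hn
  have hE : ∀ i, Ext N (z (e i)) := fun i => hW _ (hzW _)
  have hP : ∀ i, 0 < w (e i) := fun i => hw _
  have hM : ∀ i, z (e i) ∈ W := fun i => hzW _
  interval_cases n
  · simp at hs'
  · rw [Fin.sum_univ_one] at h0'
    rcases smul_eq_zero.1 h0' with h | h
    · exact absurd h (hP 0).ne'
    · exact absurd h (hE 0).1
  · rw [Fin.sum_univ_two] at h0'
    left
    have hd : dd (z (e 0)) (z (e 1)) = 0 := by
      have : w (e 1) * dd (z (e 0)) (z (e 1)) =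
          dd (z (e 0)) (w (e 0) • z (e 0) + w (e 1) • z (e 1)) := by
        simp only [dd, Prod.fst_add, Prod.snd_add, Prod.smul_fst, Prod.smul_snd, smul_eq_mul]
        ring
      rw [h0'] at this
      simp only [dd, Prod.fst_zero, Prod.snd_zero, mul_zero, sub_zero] at this
      exact (mul_eq_zero.1 this).resolve_left (hP 1).ne'
    rcases (hE 0).par (hE 1) hd with h | h
    · exfalso
      rw [h, ← add_smul] at h0'
      rcases smul_eq_zero.1 h0' with h1 | h1
      · have := hP 0
        have := hP 1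
        linarith
      · exact (hE 0).1 h1
    · exact ⟨z (e 0), hM 0, by rw [← h]; exact hM 1⟩
  · rw [Fin.sum_univ_three] at h0'
    set a := z (e 0) with ha
    set b := z (e 1) with hb
    set c := z (e 2) with hc
    set α := w (e 0) with hα
    set β := w (e 1) with hβ
    set γ := w (e 2) with hγ
    have α0 : 0 < α := hP 0
    have β0 : 0 < β := hP 1
    have γ0 : 0 < γ := hP 2
    have c1 : α * a.1 + β * b.1 + γ * c.1 = 0 := by
      have := congrArg Prod.fst h0'
      simpa using this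
    have c2 : α * a.2 + β * b.2 + γ * c.2 = 0 := by
      have := congrArg Prod.snd h0'
      simpa using this
    have d1 : α * dd a b = γ * dd b c := by
      simp only [dd]; linear_combination b.2 * c1 - b.1 * c2
    have d2 : β * dd b c = α * dd c a := by
      simp only [dd]; linear_combination c.2 * c1 - c.1 * c2
    rcases lt_trichotomy (dd a b) 0 with h | h | h
    · right
      have e1 : dd b c < 0 := by
        by_contra hcon
        push Not at hcon
        have := mul_neg_of_pos_of_neg α0 h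
        have := mul_nonneg γ0.le hcon
        linarith
      have e2 : dd c a < 0 := by
        by_contra hcon
        push Not at hcon
        have := mul_neg_of_pos_of_neg β0 e1
        have := mul_nonneg α0.le hcon
        linarith
      exact ⟨b, a, c, hM 1, hM 0, hM 2, by rw [dd_swap]; linarith, by rw [dd_swap]; linarith,
        by rw [dd_swap]; linarith⟩
    · left
      have e1 : dd b c = 0 := by
        rw [h, mul_zero] at d1
        exact (mul_eq_zero.1 d1.symm).resolve_left γ0.ne'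
      have hab : b = a ∨ b = -a := (hE 0).par (hE 1) h
      have hbc : c = b ∨ c = -b := (hE 1).par (hE 2) e1
      rcases hab with hab | hab
      · rcases hbc with hbc | hbc
        · exfalso
          rw [hbc, hab, ← add_smul, ← add_smul] at h0'
          rcases smul_eq_zero.1 h0' with h1 | h1
          · linarith
          · exact (hE 0).1 h1
        · exact ⟨b, hM 1, by rw [← hbc]; exact hM 2⟩
      · exact ⟨a, hM 0, by rw [← hab]; exact hM 1⟩
    · right
      have e1 : 0 < dd b c := by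
        have h1 := mul_pos α0 h
        rw [d1] at h1
        exact (pos_iff_pos_of_mul_pos h1).1 γ0
      have e2 : 0 < dd c a := by
        have h1 := mul_pos β0 e1
        rw [d2] at h1
        exact (pos_iff_pos_of_mul_pos h1).1 α0
      exact ⟨a, b, c, hM 0, hM 1, hM 2, h, e1, e2⟩

/-- **Three colours** for planar families with a smaller virtual member (`N` is not a norm of a
parallelogram). -/
theorem planar3 (N : Seminorm ℝ (ℝ × ℝ))
    (hT : ∃ a b c, Ext N a ∧ Ext N b ∧ Ext N c ∧ 0 < dd a b ∧ 0 < dd b c ∧ 0 < dd c a)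
    {ι : Type} [Fintype ι] (c : ι → ℝ) (x : ι → ℝ × ℝ) (hc : ∀ i, 0 < c i)
    (h : ∀ i j, i ≠ j → N (x i - x j) ≤ c i + c j) (p : ℝ × ℝ)
    (hp : ∀ m m', N (x m - p) - c m < c m') :
    ∃ col : ι → Fin 3, ∀ i j, i ≠ j → c i + c j ≤ N (x i - x j) → col i ≠ col j := by
  classical
  obtain ⟨a₁, a₂, a₃, E1, E2, E3, D12, D23, D31⟩ := hT
  rcases isEmpty_or_nonempty ι with hem | hne
  · exact ⟨fun i => (hem.false i).elim, fun i => (hem.false i).elim⟩
  obtain ⟨m0⟩ := id hne
  -- the functionals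
  have hbase : ∀ ik : ι × ι, ∃ u, Ext N u ∧
      (0 < N (x ik.2 - x ik.1) → L u (x ik.2 - x ik.1) = N (x ik.2 - x ik.1)) := by
    intro ik
    by_cases h0 : 0 < N (x ik.2 - x ik.1)
    · obtain ⟨u, h1, h2⟩ := norming_ext N _ h0
      exact ⟨u, h1, fun _ => h2⟩
    · exact ⟨a₁, E1, fun h => absurd h h0⟩
  choose F hF1 hF2 using hbase
  set base : (ι × ι) ⊕ Fin 3 → ℝ × ℝ := Sum.elim F ![a₁, a₂, a₃] with hb
  have hbE : ∀ s, Ext N (base s) := by
    rintro (s | s)
    · exact hF1 s
    · fin_cases s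
      · exact E1
      · exact E2
      · exact E3
  set uu : ((ι × ι) ⊕ Fin 3) × Bool × ι → ℝ × ℝ := fun k =>
    if k.2.1 = true then base k.1 else - base k.1 with huu
  have huE : ∀ k, Ext N (uu k) := by
    rintro ⟨s, b, m⟩
    simp only [huu]
    split_ifs
    · exact hbE s
    · exact (hbE s).neg
  obtain ⟨p₀, ρ, hg, hmin, hhull⟩ := lp uu (fun k => L (uu k) (x k.2.2) - c k.2.2) (a := a₁)
    (b := a₂) D12 ⟨(Sum.inr 0, true, m0), by simp [huu, hb]⟩
    ⟨(Sum.inr 0, false, m0), by simp [huu, hb]⟩ ⟨(Sum.inr 1, true, m0), by simp [huu, hb]⟩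
    ⟨(Sum.inr 1, false, m0), by simp [huu, hb]⟩
  set Φ : ℝ × ℝ → Prop := fun u => ∃ s, u = base s ∨ u = - base s with hΦ
  have hΦE : ∀ u, Φ u → Ext N u := by
    rintro u ⟨s, rfl | rfl⟩
    · exact hbE s
    · exact (hbE s).neg
  have hΦn : ∀ u, Φ u → Φ (-u) := by
    rintro u ⟨s, rfl | rfl⟩
    · exact ⟨s, Or.inr rfl⟩
    · exact ⟨s, Or.inl (neg_neg _)⟩
  have hg' : ∀ u, Φ u → ∀ m, L u (x m) - c m ≤ L u p₀ + ρ := by
    rintro u ⟨s, rfl | rfl⟩ m
    · simpa [huu] using hg (s, true, m)
    · simpa [huu] using hg (s, false, m)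
  have ht : ∀ i k, i ≠ k → c i + c k ≤ N (x i - x k) →
      ∃ u, Φ u ∧ L u (x k - x i) = c i + c k := by
    intro i k hik hle
    have e : N (x k - x i) = c i + c k := by
      rw [map_sub_rev N]; exact le_antisymm (h i k hik) hle
    refine ⟨F (i, k), ⟨Sum.inl (i, k), Or.inl rfl⟩, ?_⟩
    rw [← e]
    exact hF2 (i, k) (by rw [e]; exact add_pos (hc i) (hc k))
  have hρ : ∀ m, ρ < c m := by
    intro m
    obtain ⟨l, hl⟩ := Finite.exists_max fun m => N (x m - p) - c m
    refine (hmin p (N (x l - p) - c l) fun k => ?_).trans_lt (hp l m)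
    have h1 := (huE k).2.1 (x k.2.2 - p)
    have h2 := hl k.2.2
    rw [L_sub] at h1
    linarith
  have hpair : ∀ u, Ext N u → ∀ i k, L u (x k) - c k ≤ L u (x i) + c i := by
    intro u hu i k
    by_cases hik : i = k
    · subst hik
      have := hc i
      linarith
    · have h1 := hu.2.1 (x k - x i)
      have h2 := h k i (Ne.symm hik)
      rw [L_sub] at h1
      linarith
  rcases le_or_gt ρ 0 with hρ0 | hρ0
  · have hφ : ∀ s i, 0 ≤ c i - 0 + L (base s) (x i - p₀) := by
      intro s i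
      have := hg' (- base s) ⟨s, Or.inr rfl⟩ i
      rw [L_neg, L_neg] at this
      rw [L_sub]
      linarith
    exact three hc Φ (fun u hu => (hΦE u hu).2.1) hΦn ht p₀ 0 hc
      (fun u hu m => by have := hg' u hu m; linarith) E1 E2 E3 D12 D23 D31
      (hφ (Sum.inr 0)) (hφ (Sum.inr 1)) (hφ (Sum.inr 2))
  · have hWE : ∀ w ∈ {w | ∃ k, uu k = w ∧ L (uu k) (x k.2.2) - c k.2.2 = L w p₀ + ρ},
        Ext N w := by
      rintro w ⟨k, rfl, _⟩
      exact huE k
    have hφ : ∀ w, (∃ k, uu k = w ∧ L (uu k) (x k.2.2) - c k.2.2 = L w p₀ + ρ) →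
        ∀ i, 0 ≤ c i - ρ + L w (x i - p₀) := by
      rintro w ⟨k, rfl, hk⟩ i
      have := hpair _ (huE k) i k.2.2
      rw [L_sub]
      linarith
    rcases triple_of_hull hWE hhull with ⟨w, ⟨k, hk, hk'⟩, ⟨k2, hk2, hk2'⟩⟩ | ⟨w₁, w₂, w₃, m1, m2,
      m3, d1, d2, d3⟩
    · exfalso
      rw [hk] at hk'
      rw [hk2, L_neg, L_neg] at hk2'
      have hEw : Ext N w := by rw [← hk]; exact huE k
      have := hpair w hEw k2.2.2 k.2.2
      linarith
    · exact three hc Φ (fun u hu => (hΦE u hu).2.1) hΦn ht p₀ ρ hρ hg' (hWE _ m1) (hWE _ m2)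
        (hWE _ m3) d1 d2 d3 (hφ _ m1) (hφ _ m2) (hφ _ m3)

end

end Pool.Agent.DCone
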